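import Mathlib

/-!
Definitions for the proof of the theorem of Meyer (indefinite rational quadratic forms in five
variables are isotropic) through the presentation of the Witt group of the rational numbers.
-/

namespace Pool.Agent.Work.MY

/-- the class of the one dimensional form with coefficient `a` in the free group -/
def w (a : ℤ) : FreeAbelianGroup ℤ := FreeAbelianGroup.of a

/-- the defining relations of the Witt group -/
inductive IsRel : FreeAbelianGroup ℤ → Prop
  | sq (a b : ℤ) (ha : a ≠ 0) (hb : b ≠ 0) : IsRel (w (a * b ^ 2) - w a)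
  | hyp (a : ℤ) (ha : a ≠ 0) : IsRel (w a + w (-a))
  | add (a b : ℤ) (ha : a ≠ 0) (hb : b ≠ 0) (hab : a + b ≠ 0) :
      IsRel (w a + w b - w (a + b) - w (a * b * (a + b)))

/-- the subgroup generated by the relations -/
def Rel : AddSubgroup (FreeAbelianGroup ℤ) := AddSubgroup.closure {x | IsRel x}

/-- the subgroup generated by the classes of the nonzero integers all of whose prime factors are
at most `N` -/
def Sm (N : ℕ) : AddSubgroup (FreeAbelianGroup ℤ) :=
  AddSubgroup.closure {x | ∃ a : ℤ, a ≠ 0 ∧ (∀ p : ℕ, p.Prime → (p : ℤ) ∣ a → p ≤ N) ∧ x = w a}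

/-- signature -/
noncomputable def sgn : FreeAbelianGroup ℤ →+ ℤ := FreeAbelianGroup.lift fun a => Int.sign a

/-- parity of the `p`-adic valuation of the determinant -/
noncomputable def par (p : ℕ) : FreeAbelianGroup ℤ →+ ZMod 2 :=
  FreeAbelianGroup.lift fun a => (padicValInt p a : ZMod 2)

/-- the prime-to-`p` part of `a` modulo `p` -/
def res (p : ℕ) (a : ℤ) : ZMod p := ((a / (p : ℤ) ^ padicValInt p a : ℤ) : ZMod p)

open Classical in
/-- the residue invariant of the one dimensional form with coefficient `a` at the odd prime `p`: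
`0` if the valuation is even; otherwise, with `u` the unit part, `0` or `2` (square, nonsquare)
when `p % 4 = 1`, and `1` or `3` when `p % 4 = 3` -/
noncomputable def gam0 (p : ℕ) (a : ℤ) : ZMod 4 :=
  if Even (padicValInt p a) then 0
  else (if p % 4 = 1 then 0 else 1) + (if IsSquare (res p a) then 0 else 2)

/-- the residue invariant -/
noncomputable def gam (p : ℕ) : FreeAbelianGroup ℤ →+ ZMod 4 := FreeAbelianGroup.lift (gam0 p)

/-- the diagonal form with coefficients `a` has a totally isotropic subspace of half the
dimension -/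
def Neut {ι : Type} [Fintype ι] (a : ι → ℚ) : Prop :=
  ∃ M : Submodule ℚ (ι → ℚ), (∀ x ∈ M, ∑ i, a i * x i ^ 2 = 0) ∧
    2 * Module.finrank ℚ M = Fintype.card ι

end Pool.Agent.Work.MY
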