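import Mathlib
import Pool.Agent.Work.MP_b62148_ag.Meyer.Defs

/-!
Descent in the presentation of the Witt group of the rational numbers: a class whose invariants
vanish is zero.
-/

namespace Pool.Agent.Work.MY.Des

/-- all prime factors are smaller than `p` -/
def Smo (p : ℕ) (a : ℤ) : Prop := ∀ q : ℕ, q.Prime → (q : ℤ) ∣ a → q < p

theorem smo_mul {p : ℕ} {a b : ℤ} (ha : Smo p a) (hb : Smo p b) : Smo p (a * b) := by
  intro q hq h
  rcases (Nat.prime_iff_prime_int.mp hq).dvd_or_dvd h with h | h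
  · exact ha q hq h
  · exact hb q hq h

theorem smo_of_dvd {p : ℕ} {a b : ℤ} (h : a ∣ b) (hb : Smo p b) : Smo p a :=
  fun q hq hd => hb q hq (hd.trans h)

theorem smo_neg {p : ℕ} {a : ℤ} (ha : Smo p a) : Smo p (-a) :=
  fun q hq hd => ha q hq ((dvd_neg).mp hd)

theorem smo_of_lt {p : ℕ} {a : ℤ} (h0 : a ≠ 0) (h : |a| < p) : Smo p a := by
  intro q hq hd
  have := Int.le_of_dvd (abs_pos.mpr h0) ((dvd_abs _ _).mpr hd)
  exact_mod_cast this.trans_lt h

theorem not_dvd_of_smo {p : ℕ} (hp : p.Prime) {a : ℤ} (h : Smo p a) : ¬ (p : ℤ) ∣ a :=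
  fun hd => lt_irrefl _ (h p hp hd)

/-- the relations modulo the smaller primes -/
structure Rl (p : ℕ) {Q : Type} [AddCommGroup Q] (W : ℤ → Q) : Prop where
  sq : ∀ a b : ℤ, a ≠ 0 → b ≠ 0 → W (a * b ^ 2) = W a
  hyp : ∀ a : ℤ, a ≠ 0 → W a + W (-a) = 0
  add : ∀ a b : ℤ, a ≠ 0 → b ≠ 0 → a + b ≠ 0 → W a + W b = W (a + b) + W (a * b * (a + b))
  sm : ∀ a : ℤ, a ≠ 0 → Smo p a → W a = 0

variable {p : ℕ} {Q : Type} [AddCommGroup Q] {W : ℤ → Q}

theorem key (hW : Rl p W) (hp : p.Prime) {c n r l : ℤ} (hc0 : c ≠ 0) (hc : Smo p c)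
    (hn0 : n ≠ 0) (hn : Smo p n) (hr0 : r ≠ 0) (hr : Smo p r) (hl : l ≠ 0 → Smo p l)
    (h : n = r + p * l) : W (c * p * n) = W (c * p * r) := by
  have hp0 : (p : ℤ) ≠ 0 := by exact_mod_cast hp.ne_zero
  by_cases hl0 : l = 0
  · rw [h, hl0]; simp
  have hls := hl hl0
  have e3 : c * p * r + c * l * (p : ℤ) ^ 2 = c * p * n := by rw [h]; ring
  have hcpn : c * p * n ≠ 0 := mul_ne_zero (mul_ne_zero hc0 hp0) hn0
  have h1 := hW.add (c * p * r) (c * l * (p : ℤ) ^ 2)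
    (mul_ne_zero (mul_ne_zero hc0 hp0) hr0)
    (mul_ne_zero (mul_ne_zero hc0 hl0) (pow_ne_zero _ hp0)) (by rw [e3]; exact hcpn)
  have h2 : W (c * l * (p : ℤ) ^ 2) = 0 := by
    rw [hW.sq _ _ (mul_ne_zero hc0 hl0) hp0]
    exact hW.sm _ (mul_ne_zero hc0 hl0) (smo_mul hc hls)
  have h4 : c * p * r * (c * l * (p : ℤ) ^ 2) * (c * p * n) = (c * l * r * n) * (c * p ^ 2) ^ 2 := by
    ring
  have h5 : W (c * p * r * (c * l * (p : ℤ) ^ 2) * (c * p * n)) = 0 := by
    rw [h4, hW.sq _ _ (mul_ne_zero (mul_ne_zero (mul_ne_zero hc0 hl0) hr0) hn0)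
      (mul_ne_zero hc0 (pow_ne_zero _ hp0))]
    exact hW.sm _ (mul_ne_zero (mul_ne_zero (mul_ne_zero hc0 hl0) hr0) hn0)
      (smo_mul (smo_mul (smo_mul hc hls) hr) hn)
  rw [e3, h2, h5] at h1
  simpa using h1.symm

theorem step1 (hW : Rl p W) (hp : p.Prime) {c n r : ℤ} (hc0 : c ≠ 0) (hc : Smo p c)
    (hn0 : n ≠ 0) (hn : |n| < p) (hr0 : r ≠ 0) (hr : |r| < p) (h : (p : ℤ) ∣ n - r) :
    W (c * p * n) = W (c * p * r) := by
  obtain ⟨k, hk⟩ := h
  have hp0 : (0 : ℤ) < p := by exact_mod_cast hp.pos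
  have hp2 : (2 : ℤ) ≤ p := by exact_mod_cast hp.two_le
  have hk1 : |k| < 2 := by
    by_contra hcon
    push Not at hcon
    have h1 : (p : ℤ) * |k| = |n - r| := by rw [hk, abs_mul, abs_of_pos hp0]
    have h2 : |n - r| ≤ |n| + |r| := abs_sub n r
    nlinarith
  refine key hW hp hc0 hc hn0 (smo_of_lt hn0 hn) hr0 (smo_of_lt hr0 hr) (l := k) ?_ (by linarith)
  intro hk0
  refine smo_of_lt hk0 ?_
  linarith

theorem step2 (hW : Rl p W) (hp : p.Prime) {c u v r : ℤ} (hc0 : c ≠ 0) (hc : Smo p c)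
    (hu0 : u ≠ 0) (hu : |u| < p) (hv0 : v ≠ 0) (hv : |v| < p) (hr0 : r ≠ 0) (hr : |r| < p)
    (h : (p : ℤ) ∣ u * v - r) : W (c * p * (u * v)) = W (c * p * r) := by
  obtain ⟨l, hl⟩ := h
  have hp0 : (0 : ℤ) < p := by exact_mod_cast hp.pos
  have hl1 : |l| < p := by
    by_contra hcon
    push Not at hcon
    have h1 : (p : ℤ) * |l| = |u * v - r| := by rw [hl, abs_mul, abs_of_pos hp0]
    have h2 : |u * v - r| ≤ |u * v| + |r| := abs_sub _ r
    rw [abs_mul] at h2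
    have h3 : |u| * |v| ≤ (p - 1) * (p - 1) :=
      mul_le_mul (by linarith [Int.add_one_le_of_lt hu]) (by linarith [Int.add_one_le_of_lt hv])
        (abs_nonneg v) (by linarith)
    have h4 : |r| ≤ p - 1 := by linarith [Int.add_one_le_of_lt hr]
    nlinarith
  exact key hW hp hc0 hc (mul_ne_zero hu0 hv0) (smo_mul (smo_of_lt hu0 hu) (smo_of_lt hv0 hv))
    hr0 (smo_of_lt hr0 hr) (l := l) (fun h0 => smo_of_lt h0 hl1) (by linarith)

theorem emod_facts (hp : p.Prime) {n : ℤ} (h : ¬ (p : ℤ) ∣ n) :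
    n % p ≠ 0 ∧ |n % p| < p ∧ (p : ℤ) ∣ n - n % p := by
  have hp0 : (0 : ℤ) < p := by exact_mod_cast hp.pos
  refine ⟨fun h0 => h (Int.dvd_of_emod_eq_zero h0), ?_, Int.dvd_self_sub_emod⟩
  rw [abs_of_nonneg (Int.emod_nonneg _ hp0.ne')]
  exact Int.emod_lt_of_pos _ hp0

theorem step3 (hW : Rl p W) (hp : p.Prime) (N : ℕ) : ∀ (c n r : ℤ), c ≠ 0 → Smo p c →
    n ≠ 0 → Smo p n → n.natAbs ≤ N → r ≠ 0 → |r| < p → (p : ℤ) ∣ n - r →
    W (c * p * n) = W (c * p * r) := by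
  induction N with
  | zero =>
    intro c n r _ _ hn0 _ h
    exact absurd (Int.natAbs_eq_zero.mp (Nat.le_zero.mp h)) hn0
  | succ N ih =>
    intro c n r hc0 hc hn0 hn hN hr0 hr hd
    by_cases hlt : |n| < p
    · exact step1 hW hp hc0 hc hn0 hlt hr0 hr hd
    push Not at hlt
    have h1 : n.natAbs ≠ 1 := by
      intro h
      have : |n| = 1 := by rw [Int.abs_eq_natAbs, h]; rfl
      rw [this] at hlt
      have : (2 : ℤ) ≤ p := by exact_mod_cast hp.two_le
      linarith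
    set q := n.natAbs.minFac with hq
    have hqp : q.Prime := Nat.minFac_prime h1
    have hqd : (q : ℤ) ∣ n := Int.natCast_dvd.mpr (Nat.minFac_dvd _)
    have hqlt : q < p := hn q hqp hqd
    obtain ⟨m, hm⟩ := hqd
    have hq0 : (q : ℤ) ≠ 0 := by exact_mod_cast hqp.ne_zero
    have hm0 : m ≠ 0 := by rintro rfl; simp at hm; exact hn0 hm
    have hms : Smo p m := smo_of_dvd ⟨q, by rw [hm]; ring⟩ hn
    have hqs : Smo p (q : ℤ) := smo_of_dvd ⟨m, hm⟩ hn
    have hmN : m.natAbs ≤ N := by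
      have h2 : n.natAbs = q * m.natAbs := by rw [hm, Int.natAbs_mul, Int.natAbs_natCast]
      have h3 : 0 < m.natAbs := Int.natAbs_pos.mpr hm0
      have h4 := hqp.two_le
      nlinarith
    obtain ⟨a1, a2, a3⟩ := emod_facts hp (not_dvd_of_smo hp hms)
    have s1 := ih (c * q) m (m % p) (mul_ne_zero hc0 hq0) (smo_mul hc hqs) hm0 hms hmN a1 a2 a3
    have e1 : c * q * p * m = c * p * n := by rw [hm]; ring
    have e2 : c * q * p * (m % p) = c * p * (q * (m % p)) := by ring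
    rw [e1, e2] at s1
    rw [s1]
    refine step2 hW hp hc0 hc hq0 ?_ a1 a2 hr0 hr ?_
    · rw [abs_of_nonneg (by positivity)]; exact_mod_cast hqlt
    · have : (q : ℤ) * (m % p) - r = (n - r) - q * (m - m % p) := by rw [hm]; ring
      rw [this]
      exact dvd_sub hd (Dvd.dvd.mul_left a3 _)

theorem step4 (hW : Rl p W) (hp : p.Prime) {n m : ℤ} (hn0 : n ≠ 0) (hn : Smo p n)
    (hm0 : m ≠ 0) (hm : Smo p m) (h : (p : ℤ) ∣ n - m) : W (p * n) = W (p * m) := by
  obtain ⟨a1, a2, a3⟩ := emod_facts hp (not_dvd_of_smo hp hm)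
  have hone : Smo p (1 : ℤ) := by
    refine smo_of_lt one_ne_zero ?_
    simpa using hp.one_lt
  have s1 := step3 hW hp n.natAbs 1 n (m % p) one_ne_zero hone hn0 hn le_rfl a1 a2
    (by have : n - m % p = (n - m) + (m - m % p) := by ring
        rw [this]; exact dvd_add h a3)
  have s2 := step3 hW hp m.natAbs 1 m (m % p) one_ne_zero hone hm0 hm le_rfl a1 a2 a3
  simp only [one_mul] at s1 s2
  rw [s1, s2]


theorem not_isSquare_mul [Fact p.Prime] (h2 : p ≠ 2) {a b : ZMod p} (ha : ¬ IsSquare a)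
    (hb : ¬ IsSquare b) : IsSquare (a * b) := by
  have hF : ringChar (ZMod p) ≠ 2 := by rwa [ZMod.ringChar_zmod_n]
  have ha' := (quadraticChar_neg_one_iff_not_isSquare (F := ZMod p)).mpr ha
  have hb' := (quadraticChar_neg_one_iff_not_isSquare (F := ZMod p)).mpr hb
  have h0 : a * b ≠ 0 := by
    intro h
    rcases mul_eq_zero.mp h with h | h
    · exact ha (h ▸ IsSquare.zero)
    · exact hb (h ▸ IsSquare.zero)
  rw [← quadraticChar_one_iff_isSquare h0, map_mul, ha', hb']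
  norm_num

/-- the least nonresidue -/
theorem exists_u0 [Fact p.Prime] (h2 : p ≠ 2) : ∃ u : ℕ, 2 ≤ u ∧ u < p ∧
    ¬ IsSquare ((u : ℤ) : ZMod p) ∧ IsSquare (((u : ℤ) - 1 : ℤ) : ZMod p) := by
  classical
  have hF : ringChar (ZMod p) ≠ 2 := by rwa [ZMod.ringChar_zmod_n]
  obtain ⟨a, ha⟩ := FiniteField.exists_nonsquare hF
  have hex : ∃ u : ℕ, ¬ IsSquare (u : ZMod p) := ⟨a.val, by rwa [ZMod.natCast_zmod_val]⟩
  have hs := Nat.find_spec hex
  have hmin := fun {m : ℕ} => Nat.find_min hex (m := m)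
  have hle : Nat.find hex ≤ a.val := Nat.find_min' hex (by rwa [ZMod.natCast_zmod_val])
  set u := Nat.find hex with hu
  have h2u : 2 ≤ u := by
    by_contra hlt
    have : u = 0 ∨ u = 1 := by omega
    rcases this with h | h
    · rw [h] at hs; exact hs (by simp)
    · rw [h] at hs; exact hs (by simp)
  refine ⟨u, h2u, lt_of_le_of_lt hle (ZMod.val_lt a), by simpa using hs, ?_⟩
  have := hmin (m := u - 1) (by omega)
  rw [not_not, Nat.cast_sub (by omega : 1 ≤ u)] at this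
  simpa using this

theorem cast_ne_zero_of_smo (hp : p.Prime) {n : ℤ} (hn : Smo p n) : (n : ZMod p) ≠ 0 := by
  rw [Ne, ZMod.intCast_zmod_eq_zero_iff_dvd]
  exact not_dvd_of_smo hp hn

theorem smo_nat_lt {v : ℕ} (h0 : v ≠ 0) (h : v < p) : Smo p (v : ℤ) :=
  smo_of_lt (by exact_mod_cast h0) (by rw [abs_of_nonneg (by positivity)]; exact_mod_cast h)

/-- a residue class -/
theorem W_sq (hW : Rl p W) (hp : p.Prime) [Fact p.Prime] {n t : ℤ} (hn0 : n ≠ 0) (hn : Smo p n)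
    (ht0 : t ≠ 0) (ht : Smo p t) (v : ZMod p) (h : (n : ZMod p) = t * (v * v)) :
    W (p * n) = W (p * t) := by
  have hnz := cast_ne_zero_of_smo hp hn
  have hv0 : v ≠ 0 := by rintro rfl; exact hnz (by rw [h]; simp)
  have hvv : v.val ≠ 0 := by rwa [Ne, ZMod.val_eq_zero]
  have hvs := smo_nat_lt hvv (ZMod.val_lt v)
  have hvz : ((v.val : ℕ) : ℤ) ≠ 0 := by exact_mod_cast hvv
  have h1 : W (p * n) = W (p * (t * (v.val : ℤ) ^ 2)) := by
    refine step4 hW hp hn0 hn (mul_ne_zero ht0 (pow_ne_zero _ hvz)) ?_ ?_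
    · rw [pow_two]; exact smo_mul ht (smo_mul hvs hvs)
    · rw [← ZMod.intCast_zmod_eq_zero_iff_dvd]
      push_cast
      rw [ZMod.natCast_zmod_val, h]
      ring
  rw [h1, ← mul_assoc, hW.sq _ _ (mul_ne_zero (by exact_mod_cast hp.ne_zero) ht0) hvz]

theorem W_of_isSquare (hW : Rl p W) (hp : p.Prime) [Fact p.Prime] {n : ℤ} (hn0 : n ≠ 0)
    (hn : Smo p n) (h : IsSquare (n : ZMod p)) : W (p * n) = W p := by
  obtain ⟨r, hr⟩ := h
  have hone : Smo p (1 : ℤ) := by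
    refine smo_of_lt one_ne_zero ?_
    simpa using hp.one_lt
  have := W_sq hW hp hn0 hn one_ne_zero hone r (by rw [hr]; simp)
  rwa [mul_one] at this

theorem W_of_not_isSquare (hW : Rl p W) (hp : p.Prime) [Fact p.Prime] (h2 : p ≠ 2) {u : ℕ}
    (h2u : 2 ≤ u) (hup : u < p) (hu : ¬ IsSquare ((u : ℤ) : ZMod p)) {n : ℤ} (hn0 : n ≠ 0)
    (hn : Smo p n) (h : ¬ IsSquare (n : ZMod p)) : W (p * n) = W (p * u) := by
  obtain ⟨r, hr⟩ := not_isSquare_mul h2 h hu
  have hus : Smo p (u : ℤ) := smo_nat_lt (by omega) hup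
  have hu0 : ((u : ℤ) : ZMod p) ≠ 0 := cast_ne_zero_of_smo hp hus
  refine W_sq hW hp hn0 hn (by exact_mod_cast (by omega : u ≠ 0)) hus (r / ((u : ℤ) : ZMod p)) ?_
  field_simp
  rw [pow_two, ← hr]

theorem W_two (hW : Rl p W) (hp : p.Prime) [Fact p.Prime] (h2 : p ≠ 2) {u : ℕ}
    (h2u : 2 ≤ u) (hup : u < p) (hu : ¬ IsSquare ((u : ℤ) : ZMod p))
    (hu1 : IsSquare (((u : ℤ) - 1 : ℤ) : ZMod p)) : W p + W p = W (p * u) + W (p * u) := by
  have hp0 : (p : ℤ) ≠ 0 := by exact_mod_cast hp.ne_zero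
  have hus : Smo p (u : ℤ) := smo_nat_lt (by omega) hup
  have huz : (u : ℤ) ≠ 0 := by exact_mod_cast (by omega : u ≠ 0)
  have hvz : (u : ℤ) - 1 ≠ 0 := by
    have : (2 : ℤ) ≤ u := by exact_mod_cast h2u
    intro h; linarith
  have hvs : Smo p ((u : ℤ) - 1) := by
    have h1 := smo_nat_lt (p := p) (v := u - 1) (by omega) (by omega)
    rwa [Nat.cast_sub (by omega : 1 ≤ u), Nat.cast_one] at h1
  have e1 : (p : ℤ) * (u - 1) + p = p * u := by ring
  have h := hW.add (p * ((u : ℤ) - 1)) p (mul_ne_zero hp0 hvz) hp0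
    (by rw [e1]; exact mul_ne_zero hp0 huz)
  rw [e1] at h
  have e2 : (p : ℤ) * (u - 1) * p * (p * u) = (p * (u * (u - 1))) * p ^ 2 := by ring
  rw [e2, hW.sq _ _ (mul_ne_zero hp0 (mul_ne_zero huz hvz)) hp0,
    W_of_isSquare hW hp hvz hvs hu1] at h
  rw [h]
  congr 1
  refine W_of_not_isSquare hW hp h2 h2u hup hu (mul_ne_zero huz hvz) (smo_mul hus hvs) ?_
  intro hsq
  apply hu
  obtain ⟨r, hr⟩ := hu1
  obtain ⟨s, hs⟩ := hsq
  have hv0 : (((u : ℤ) - 1 : ℤ) : ZMod p) ≠ 0 := cast_ne_zero_of_smo hp hvs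
  have hr0 : r ≠ 0 := by rintro rfl; exact hv0 (by rw [hr]; simp)
  rw [Int.cast_mul, hr] at hs
  refine ⟨s / r, ?_⟩
  field_simp
  linear_combination hs

theorem W_neg (hW : Rl p W) (hp : p.Prime) [Fact p.Prime] (h2 : p ≠ 2) {u : ℕ}
    (h2u : 2 ≤ u) (hup : u < p) (hu : ¬ IsSquare ((u : ℤ) : ZMod p)) :
    (p % 4 = 1 → W p + W p = 0) ∧ (p % 4 = 3 → W p + W (p * u) = 0) := by
  have hp0 : (p : ℤ) ≠ 0 := by exact_mod_cast hp.ne_zero
  have h := hW.hyp p hp0
  have e : -(p : ℤ) = p * (-1) := by ring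
  have h1s : Smo p (-1 : ℤ) := smo_of_lt (by norm_num) (by simpa using hp.one_lt)
  constructor
  · intro h4
    rw [e, W_of_isSquare hW hp (by norm_num) h1s] at h
    · exact h
    · have : IsSquare (-1 : ZMod p) := ZMod.exists_sq_eq_neg_one_iff.mpr (by omega)
      simpa using this
  · intro h4
    rw [e, W_of_not_isSquare hW hp h2 h2u hup hu (by norm_num) h1s] at h
    · exact h
    · intro hs
      have : IsSquare (-1 : ZMod p) := by simpa using hs
      exact (ZMod.exists_sq_eq_neg_one_iff.mp this) h4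

/-! ### values of the invariants -/

theorem padic_of_smo (hp : p.Prime) {a : ℤ} (hs : Smo p a) : padicValInt p a = 0 :=
  padicValInt.eq_zero_of_not_dvd (not_dvd_of_smo hp hs)

theorem padic_mul_smo (hp : p.Prime) {a : ℤ} (h0 : a ≠ 0) (hs : Smo p a) :
    padicValInt p (p * a) = 1 := by
  have := Fact.mk hp
  rw [padicValInt.mul (by exact_mod_cast hp.ne_zero) h0, padic_of_smo hp hs, padicValInt_self]

theorem res_mul_smo (hp : p.Prime) {a : ℤ} (h0 : a ≠ 0) (hs : Smo p a) :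
    res p (p * a) = (a : ZMod p) := by
  have hp0 : (p : ℤ) ≠ 0 := by exact_mod_cast hp.ne_zero
  rw [res, padic_mul_smo hp h0 hs, pow_one, Int.mul_ediv_cancel_left _ hp0]

theorem par_smo (hp : p.Prime) {a : ℤ} (hs : Smo p a) : par p (w a) = 0 := by
  simp [par, w, padic_of_smo hp hs]

theorem gam_smo (hp : p.Prime) {a : ℤ} (hs : Smo p a) : gam p (w a) = 0 := by
  simp [gam, gam0, w, padic_of_smo hp hs]

theorem par_mul_smo (hp : p.Prime) {a : ℤ} (h0 : a ≠ 0) (hs : Smo p a) :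
    par p (w (p * a)) = 1 := by
  simp [par, w, padic_mul_smo hp h0 hs]

open Classical in
theorem gam_mul_smo (hp : p.Prime) {a : ℤ} (h0 : a ≠ 0) (hs : Smo p a) :
    gam p (w (p * a)) = (if p % 4 = 1 then 0 else 1) + (if IsSquare (a : ZMod p) then 0 else 2) := by
  simp [gam, gam0, w, padic_mul_smo hp h0 hs, res_mul_smo hp h0 hs]

theorem smo_iff {a : ℤ} (hp : p.Prime) :
    (∀ q : ℕ, q.Prime → (q : ℤ) ∣ a → q ≤ p - 1) ↔ Smo p a := by
  have := hp.pos
  constructor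
  · intro h q hq hd
    have := h q hq hd
    omega
  · intro h q hq hd
    have := h q hq hd
    omega

/-- the group of smaller classes -/
abbrev L (p : ℕ) : AddSubgroup (FreeAbelianGroup ℤ) := Sm (p - 1) ⊔ Rel

/-- classes modulo smaller classes -/
def WL (p : ℕ) (a : ℤ) : FreeAbelianGroup ℤ ⧸ L p := QuotientAddGroup.mk (w a)

theorem mk_rel {x y : FreeAbelianGroup ℤ} (h : IsRel (x - y)) :
    (QuotientAddGroup.mk x : FreeAbelianGroup ℤ ⧸ L p) = QuotientAddGroup.mk y := by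
  rw [QuotientAddGroup.eq]
  have : -x + y = -(x - y) := by abel
  rw [this]
  exact neg_mem (AddSubgroup.mem_sup_right (AddSubgroup.subset_closure h))

theorem rl_WL (hp : p.Prime) : Rl p (WL p) where
  sq a b ha hb := mk_rel (IsRel.sq a b ha hb)
  hyp a ha := by
    have h : IsRel (w a + w (-a) - 0) := by rw [sub_zero]; exact IsRel.hyp a ha
    have := mk_rel (p := p) h
    simpa [WL] using this
  add a b ha hb hab := by
    have h : IsRel (w a + w b - (w (a + b) + w (a * b * (a + b)))) := by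
      rw [sub_add_eq_sub_sub]; exact IsRel.add a b ha hb hab
    have := mk_rel (p := p) h
    simpa [WL] using this
  sm a ha hs := by
    rw [WL, QuotientAddGroup.eq_zero_iff]
    exact AddSubgroup.mem_sup_left (AddSubgroup.subset_closure ⟨a, ha, (smo_iff hp).mpr hs, rfl⟩)

theorem exists_ij (hp : p.Prime) (h2 : p ≠ 2) {u : ℕ} (h2u : 2 ≤ u) (hup : u < p)
    (hu : ¬ IsSquare ((u : ℤ) : ZMod p)) {x : FreeAbelianGroup ℤ} (hx : x ∈ Sm p) :
    ∃ i j : ℤ, (QuotientAddGroup.mk x : FreeAbelianGroup ℤ ⧸ L p) = i • WL p p + j • WL p (p * u) := by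
  have := Fact.mk hp
  have hp0 : (p : ℤ) ≠ 0 := by exact_mod_cast hp.ne_zero
  have hW := rl_WL hp
  refine AddSubgroup.closure_induction ?_ ?_ ?_ ?_ hx
  · rintro _ ⟨a, ha0, ha, rfl⟩
    -- write a = p ^ k * n
    obtain ⟨k, n, hn, hk⟩ : ∃ (k : ℕ) (n : ℤ), ¬ (p : ℤ) ∣ n ∧ a = p ^ k * n := by
      have hf : FiniteMultiplicity (p : ℤ) a :=
        Int.finiteMultiplicity_iff.mpr ⟨by simpa using hp.one_lt.ne', ha0⟩
      obtain ⟨n, h1, h2⟩ := hf.exists_eq_pow_mul_and_not_dvd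
      exact ⟨_, n, h2, h1⟩
    have hn0 : n ≠ 0 := by rintro rfl; simp at hn
    have hns : Smo p n := by
      intro q hq hd
      have h1 := ha q hq (hk ▸ Dvd.dvd.mul_left hd _)
      refine lt_of_le_of_ne h1 ?_
      rintro rfl
      exact hn hd
    rcases Nat.even_or_odd' k with ⟨m, hm | hm⟩
    · refine ⟨0, 0, ?_⟩
      have h1 : WL p a = 0 := by
        have : a = n * ((p : ℤ) ^ m) ^ 2 := by rw [hk, hm]; ring
        rw [this, hW.sq _ _ hn0 (pow_ne_zero _ hp0)]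
        exact hW.sm n hn0 hns
      simpa [WL] using h1
    · have h1 : WL p a = WL p (p * n) := by
        have : a = (p * n) * ((p : ℤ) ^ m) ^ 2 := by rw [hk, hm]; ring
        rw [this, hW.sq _ _ (mul_ne_zero hp0 hn0) (pow_ne_zero _ hp0)]
      by_cases hsq : IsSquare (n : ZMod p)
      · refine ⟨1, 0, ?_⟩
        rw [W_of_isSquare hW hp hn0 hns hsq] at h1
        simpa [WL] using h1
      · refine ⟨0, 1, ?_⟩
        rw [W_of_not_isSquare hW hp h2 h2u hup hu hn0 hns hsq] at h1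
        simpa [WL] using h1
  · exact ⟨0, 0, by simp⟩
  · rintro x y _ _ ⟨i, j, h⟩ ⟨i', j', h'⟩
    refine ⟨i + i', j + j', ?_⟩
    rw [QuotientAddGroup.mk_add, h, h', add_zsmul, add_zsmul]
    abel
  · rintro x _ ⟨i, j, h⟩
    refine ⟨-i, -j, ?_⟩
    rw [QuotientAddGroup.mk_neg, h, neg_zsmul, neg_zsmul]
    abel

theorem par_L (hp : p.Prime) (hR : ∀ x ∈ Rel, par p x = 0) {x : FreeAbelianGroup ℤ}
    (hx : x ∈ L p) : par p x = 0 := by
  obtain ⟨y, hy, z, hz, rfl⟩ := AddSubgroup.mem_sup.mp hx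
  rw [map_add, hR z hz, add_zero]
  refine AddSubgroup.closure_induction ?_ ?_ ?_ ?_ hy
  · rintro _ ⟨a, ha0, ha, rfl⟩
    exact par_smo hp ((smo_iff hp).mp ha)
  · simp
  · intro x y _ _ hx hy; rw [map_add, hx, hy, add_zero]
  · intro x _ hx; rw [map_neg, hx, neg_zero]

theorem gam_L (hp : p.Prime) (hR : ∀ x ∈ Rel, gam p x = 0) {x : FreeAbelianGroup ℤ}
    (hx : x ∈ L p) : gam p x = 0 := by
  obtain ⟨y, hy, z, hz, rfl⟩ := AddSubgroup.mem_sup.mp hx
  rw [map_add, hR z hz, add_zero]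
  refine AddSubgroup.closure_induction ?_ ?_ ?_ ?_ hy
  · rintro _ ⟨a, ha0, ha, rfl⟩
    exact gam_smo hp ((smo_iff hp).mp ha)
  · simp
  · intro x y _ _ hx hy; rw [map_add, hx, hy, add_zero]
  · intro x _ hx; rw [map_neg, hx, neg_zero]

/-- the descent step, with the invariance of the invariants as hypotheses -/
theorem descent_aux (hp : p.Prime) (h2 : p ≠ 2) (hRp : ∀ x ∈ Rel, par p x = 0)
    (hRg : ∀ x ∈ Rel, gam p x = 0) {x : FreeAbelianGroup ℤ} (hx : x ∈ Sm p)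
    (h1 : par p x = 0) (h4 : gam p x = 0) : ∃ y ∈ Sm (p - 1), x - y ∈ Rel := by
  have := Fact.mk hp
  suffices h : x ∈ L p by
    obtain ⟨y, hy, z, hz, rfl⟩ := AddSubgroup.mem_sup.mp h
    exact ⟨y, hy, by simpa using hz⟩
  obtain ⟨u, h2u, hup, hu, hu1⟩ := exists_u0 (p := p) h2
  have hW := rl_WL hp
  obtain ⟨i, j, hij⟩ := exists_ij hp h2 h2u hup hu hx
  have hus : Smo p (u : ℤ) := smo_nat_lt (by omega) hup
  have huz : (u : ℤ) ≠ 0 := by exact_mod_cast (by omega : u ≠ 0)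
  have hone : Smo p (1 : ℤ) := by
    refine smo_of_lt one_ne_zero ?_
    simpa using hp.one_lt
  have hmem : x - (i • w p + j • w (p * u)) ∈ L p := by
    rw [← QuotientAddGroup.eq_zero_iff, QuotientAddGroup.mk_sub, hij]
    simp [WL]
  have hpar := par_L hp hRp hmem
  have hgam := gam_L hp hRg hmem
  have pe : par p (w p) = 1 := by
    have := par_mul_smo hp one_ne_zero hone
    rwa [mul_one] at this
  have ge : gam p (w p) = (if p % 4 = 1 then 0 else 1) := by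
    have h := gam_mul_smo hp one_ne_zero hone
    rw [mul_one] at h
    rw [h, if_pos (by simp : IsSquare ((1 : ℤ) : ZMod p)), add_zero]
  rw [map_sub, h1, map_add, map_zsmul, map_zsmul, pe, par_mul_smo hp huz hus] at hpar
  rw [map_sub, h4, map_add, map_zsmul, map_zsmul, ge, gam_mul_smo hp huz hus, if_neg hu] at hgam
  have e1 : (2 : ℤ) ∣ i + j := by
    rw [show (2 : ℤ) = ((2 : ℕ) : ℤ) by norm_num, ← ZMod.intCast_zmod_eq_zero_iff_dvd]
    push_cast
    simp only [zsmul_eq_mul, mul_one] at hpar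
    linear_combination -hpar
  have htwo := W_two hW hp h2 h2u hup hu hu1
  obtain ⟨n1, n3⟩ := W_neg hW hp h2 h2u hup hu
  rw [← QuotientAddGroup.eq_zero_iff, hij]
  have hodd : p % 4 = 1 ∨ p % 4 = 3 := by
    have := hp.eq_two_or_odd
    omega
  rcases hodd with h | h
  · simp only [if_pos h] at hgam
    have e2 : (4 : ℤ) ∣ 2 * j := by
      rw [show (4 : ℤ) = ((4 : ℕ) : ℤ) by norm_num, ← ZMod.intCast_zmod_eq_zero_iff_dvd]
      push_cast
      simp only [zsmul_eq_mul, mul_zero, zero_add] at hgam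
      linear_combination -hgam
    obtain ⟨j', rfl⟩ : (2 : ℤ) ∣ j := by omega
    obtain ⟨i', rfl⟩ : (2 : ℤ) ∣ i := by omega
    have z1 := n1 h
    have z2 : WL p (p * u) + WL p (p * u) = 0 := by rw [← htwo, z1]
    rw [mul_comm 2 i', mul_comm 2 j', mul_zsmul, mul_zsmul, two_zsmul, two_zsmul, z1, z2]
    simp
  · have h1' : ¬ p % 4 = 1 := by omega
    simp only [if_neg h1'] at hgam
    have e2 : (4 : ℤ) ∣ i + 3 * j := by
      rw [show (4 : ℤ) = ((4 : ℕ) : ℤ) by norm_num, ← ZMod.intCast_zmod_eq_zero_iff_dvd]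
      push_cast
      simp only [zsmul_eq_mul] at hgam
      linear_combination -hgam
    obtain ⟨k, hk⟩ : (4 : ℤ) ∣ i - j := by omega
    have z1 := n3 h
    have z2 : WL p (p * u) = -WL p p := (neg_eq_of_add_eq_zero_right z1).symm
    have z4 : (4 : ℤ) • WL p p = 0 := by
      have h3 : WL p p + WL p p = -WL p p + -WL p p := by rw [htwo, z2]
      have h4 : (4 : ℤ) • WL p p = (WL p p + WL p p) - (-WL p p + -WL p p) := by
        have : (4 : ℤ) = 1 + 1 + 1 + 1 := by norm_num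
        rw [this, add_zsmul, add_zsmul, add_zsmul, one_zsmul]
        abel
      rw [h4, h3, sub_self]
    have hi : i = j + k * 4 := by linarith
    rw [z2, hi, add_zsmul, mul_zsmul, z4]
    simp

/-! ### the bottom of the descent -/

theorem Sm_mono {M N : ℕ} (h : M ≤ N) : Sm M ≤ Sm N := by
  refine AddSubgroup.closure_mono ?_
  rintro _ ⟨a, h0, ha, rfl⟩
  exact ⟨a, h0, fun q hq hd => (ha q hq hd).trans h, rfl⟩

theorem Sm_succ_le {N : ℕ} (h : ¬ (N + 1).Prime) : Sm (N + 1) ≤ Sm N := by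
  refine AddSubgroup.closure_mono ?_
  rintro _ ⟨a, h0, ha, rfl⟩
  refine ⟨a, h0, fun q hq hd => ?_, rfl⟩
  have h1 := ha q hq hd
  rcases Nat.lt_or_ge q (N + 1) with h2 | h2
  · omega
  · exact absurd (le_antisymm h1 h2 ▸ hq) h

/-- classes modulo the relations -/
def WR (a : ℤ) : FreeAbelianGroup ℤ ⧸ Rel := QuotientAddGroup.mk (w a)

theorem mk_relR {x y : FreeAbelianGroup ℤ} (h : IsRel (x - y)) :
    (QuotientAddGroup.mk x : FreeAbelianGroup ℤ ⧸ Rel) = QuotientAddGroup.mk y := by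
  rw [QuotientAddGroup.eq]
  have : -x + y = -(x - y) := by abel
  rw [this]
  exact neg_mem (AddSubgroup.subset_closure h)

theorem WR_sq (a b : ℤ) (ha : a ≠ 0) (hb : b ≠ 0) : WR (a * b ^ 2) = WR a :=
  mk_relR (IsRel.sq a b ha hb)

theorem WR_hyp (a : ℤ) (ha : a ≠ 0) : WR (-a) = - WR a := by
  have h : IsRel (w a + w (-a) - 0) := by rw [sub_zero]; exact IsRel.hyp a ha
  have := mk_relR h
  rw [QuotientAddGroup.mk_add] at this
  exact (neg_eq_of_add_eq_zero_right this).symm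

theorem WR_two : WR 1 + WR 1 = WR 2 + WR 2 := by
  have h : IsRel (w 1 + w 1 - (w (1 + 1) + w (1 * 1 * (1 + 1)))) := by
    rw [sub_add_eq_sub_sub]; exact IsRel.add 1 1 one_ne_zero one_ne_zero (by norm_num)
  have := mk_relR h
  rw [QuotientAddGroup.mk_add, QuotientAddGroup.mk_add] at this
  norm_num at this
  exact this

theorem exists_ij2 {x : FreeAbelianGroup ℤ} (hx : x ∈ Sm 2) :
    ∃ i j : ℤ, (QuotientAddGroup.mk x : FreeAbelianGroup ℤ ⧸ Rel) = i • WR 1 + j • WR 2 := by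
  refine AddSubgroup.closure_induction ?_ ?_ ?_ ?_ hx
  · rintro _ ⟨a, ha0, ha, rfl⟩
    obtain ⟨k, hk⟩ : ∃ k : ℕ, a.natAbs = 2 ^ k := by
      refine ⟨a.natAbs.primeFactorsList.length, ?_⟩
      refine Nat.eq_prime_pow_of_unique_prime_dvd (Int.natAbs_ne_zero.mpr ha0) ?_
      intro q hq hd
      have := ha q hq (Int.natCast_dvd.mpr hd)
      have := hq.two_le
      omega
    have hcase : ∀ s : ℤ, s = 1 ∨ s = -1 → ∀ b : ℤ, b ≠ 0 → WR (s * b) = s • WR b := by
      rintro s (rfl | rfl) b hb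
      · simp
      · rw [neg_one_mul, WR_hyp b hb]; simp
    obtain ⟨s, hs, has⟩ : ∃ s : ℤ, (s = 1 ∨ s = -1) ∧ a = s * 2 ^ k := by
      rcases Int.natAbs_eq a with h | h
      · exact ⟨1, Or.inl rfl, by rw [h, hk]; push_cast; ring⟩
      · exact ⟨-1, Or.inr rfl, by rw [h, hk]; push_cast; ring⟩
    have h1 : (QuotientAddGroup.mk (w a) : FreeAbelianGroup ℤ ⧸ Rel) = s • WR (2 ^ k) := by
      rw [← hcase s hs _ (pow_ne_zero _ two_ne_zero), ← has]
      rfl
    rw [h1]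
    rcases Nat.even_or_odd' k with ⟨m, hm | hm⟩
    · refine ⟨s, 0, ?_⟩
      have : WR ((2 : ℤ) ^ k) = WR 1 := by
        have e : (2 : ℤ) ^ k = 1 * (2 ^ m) ^ 2 := by rw [hm]; ring
        rw [e, WR_sq _ _ one_ne_zero (pow_ne_zero _ two_ne_zero)]
      rw [this]; simp
    · refine ⟨0, s, ?_⟩
      have : WR ((2 : ℤ) ^ k) = WR 2 := by
        have e : (2 : ℤ) ^ k = 2 * (2 ^ m) ^ 2 := by rw [hm]; ring
        rw [e, WR_sq _ _ two_ne_zero (pow_ne_zero _ two_ne_zero)]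
      rw [this]; simp
  · exact ⟨0, 0, by simp⟩
  · rintro x y _ _ ⟨i, j, h⟩ ⟨i', j', h'⟩
    refine ⟨i + i', j + j', ?_⟩
    rw [QuotientAddGroup.mk_add, h, h', add_zsmul, add_zsmul]
    abel
  · rintro x _ ⟨i, j, h⟩
    refine ⟨-i, -j, ?_⟩
    rw [QuotientAddGroup.mk_neg, h, neg_zsmul, neg_zsmul]
    abel

theorem bottom (hRs : ∀ x ∈ Rel, sgn x = 0) (hRp : ∀ x ∈ Rel, par 2 x = 0)
    {x : FreeAbelianGroup ℤ} (hx : x ∈ Sm 2) (hs : sgn x = 0) (h1 : par 2 x = 0) : x ∈ Rel := by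
  obtain ⟨i, j, hij⟩ := exists_ij2 hx
  have hmem : x - (i • w 1 + j • w 2) ∈ Rel := by
    rw [← QuotientAddGroup.eq_zero_iff, QuotientAddGroup.mk_sub, hij]
    simp [WR]
  have hp := hRp _ hmem
  have hg := hRs _ hmem
  have p1 : par 2 (w 1) = 0 := by simp [par, w]
  have p2 : par 2 (w 2) = 1 := by
    have : padicValInt 2 2 = 1 := padicValInt_self
    simp [par, w, this]
  have s1 : sgn (w 1) = 1 := by simp [sgn, w]
  have s2 : sgn (w 2) = 1 := by
    have : Int.sign 2 = 1 := rfl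
    simp [sgn, w, this]
  rw [map_sub, h1, map_add, map_zsmul, map_zsmul, p1, p2] at hp
  rw [map_sub, hs, map_add, map_zsmul, map_zsmul, s1, s2] at hg
  have e1 : (2 : ℤ) ∣ j := by
    rw [show (2 : ℤ) = ((2 : ℕ) : ℤ) by norm_num, ← ZMod.intCast_zmod_eq_zero_iff_dvd]
    simp only [zsmul_eq_mul, mul_one, mul_zero, zero_add] at hp
    linear_combination -hp
  obtain ⟨k, rfl⟩ := e1
  have hi : i = -(2 * k) := by
    simp only [zsmul_eq_mul, mul_one] at hg
    simp only [Int.cast_id] at hg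
    linarith
  rw [← QuotientAddGroup.eq_zero_iff, hij, hi, neg_zsmul, mul_comm 2 k, mul_zsmul, mul_zsmul,
    two_zsmul, two_zsmul, WR_two]
  simp

theorem mem_Rel_aux (hRs : ∀ x ∈ Rel, sgn x = 0)
    (hRp : ∀ p : ℕ, p.Prime → ∀ x ∈ Rel, par p x = 0)
    (hRg : ∀ p : ℕ, p.Prime → p ≠ 2 → ∀ x ∈ Rel, gam p x = 0) (N : ℕ) :
    ∀ x ∈ Sm N, sgn x = 0 → (∀ p : ℕ, p.Prime → par p x = 0) →
      (∀ p : ℕ, p.Prime → p ≠ 2 → gam p x = 0) → x ∈ Rel := by
  induction N with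
  | zero =>
    intro x hx hs h1 _
    exact bottom hRs (hRp 2 Nat.prime_two) (Sm_mono (by norm_num) hx) hs (h1 2 Nat.prime_two)
  | succ N ih =>
    intro x hx hs h1 h4
    by_cases hN : N + 1 ≤ 2
    · exact bottom hRs (hRp 2 Nat.prime_two) (Sm_mono hN hx) hs (h1 2 Nat.prime_two)
    by_cases hp : (N + 1).Prime
    · have h2 : N + 1 ≠ 2 := by omega
      obtain ⟨y, hy, hxy⟩ := descent_aux hp h2 (hRp _ hp) (hRg _ hp h2) hx (h1 _ hp) (h4 _ hp h2)
      have hy' : y ∈ Rel := by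
        refine ih y (by simpa using hy) ?_ ?_ ?_
        · have := hRs _ hxy
          rw [map_sub, hs, zero_sub, neg_eq_zero] at this
          exact this
        · intro q hq
          have := hRp q hq _ hxy
          rw [map_sub, h1 q hq, zero_sub, neg_eq_zero] at this
          exact this
        · intro q hq hq2
          have := hRg q hq hq2 _ hxy
          rw [map_sub, h4 q hq hq2, zero_sub, neg_eq_zero] at this
          exact this
      have := add_mem hxy hy'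
      rwa [sub_add_cancel] at this
    · exact ih x (Sm_succ_le hp hx) hs h1 h4

end Pool.Agent.Work.MY.Des
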