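import Mathlib
import Pool.Agent.Work.MP_b62148_ag.Meyer.Defs

/-!
The signature, the parity and the residue invariants vanish on the relations of the Witt group.
-/

namespace Pool.Agent.Work.MY

theorem closure_zero {A : Type} [AddCommGroup A] (f : FreeAbelianGroup ℤ →+ A)
    (h : ∀ x, IsRel x → f x = 0) {x : FreeAbelianGroup ℤ} (hx : x ∈ Rel) : f x = 0 := by
  refine AddSubgroup.closure_induction ?_ ?_ ?_ ?_ hx
  · intro x hx; exact h x hx
  · exact map_zero f
  · intro x y _ _ hx hy; rw [map_add, hx, hy, add_zero]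
  · intro x _ hx; rw [map_neg, hx, neg_zero]

theorem sgn_w (a : ℤ) : sgn (w a) = Int.sign a := by simp [sgn, w]

theorem par_w (p : ℕ) (a : ℤ) : par p (w a) = (padicValInt p a : ZMod 2) := by simp [par, w]

theorem gam_w (p : ℕ) (a : ℤ) : gam p (w a) = gam0 p a := by simp [gam, w]

theorem sgn_Rel {x : FreeAbelianGroup ℤ} (hx : x ∈ Rel) : sgn x = 0 := by
  refine closure_zero sgn ?_ hx
  rintro _ (⟨a, b, ha, hb⟩ | ⟨a, ha⟩ | ⟨a, b, ha, hb, hab⟩)
  · rw [map_sub, sgn_w, sgn_w, Int.sign_mul, Int.sign_eq_one_of_pos (by positivity : 0 < b ^ 2)]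
    ring
  · rw [map_add, sgn_w, sgn_w, Int.sign_neg]
    ring
  · rw [map_sub, map_sub, map_add, sgn_w, sgn_w, sgn_w, sgn_w, Int.sign_mul, Int.sign_mul]
    rcases lt_or_gt_of_ne ha with h1 | h1 <;> rcases lt_or_gt_of_ne hb with h2 | h2
    · rw [Int.sign_eq_neg_one_of_neg h1, Int.sign_eq_neg_one_of_neg h2,
        Int.sign_eq_neg_one_of_neg (by linarith : a + b < 0)]
      norm_num
    · rw [Int.sign_eq_neg_one_of_neg h1, Int.sign_eq_one_of_pos h2]
      ring
    · rw [Int.sign_eq_neg_one_of_neg h2, Int.sign_eq_one_of_pos h1]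
      ring
    · rw [Int.sign_eq_one_of_pos h1, Int.sign_eq_one_of_pos h2,
        Int.sign_eq_one_of_pos (by linarith : 0 < a + b)]
      norm_num

theorem two_eq_zero' (x : ZMod 2) : x + x = 0 := by
  have : (2 : ZMod 2) = 0 := rfl
  linear_combination x * this

theorem par_Rel (p : ℕ) (hp : p.Prime) {x : FreeAbelianGroup ℤ} (hx : x ∈ Rel) : par p x = 0 := by
  have := Fact.mk hp
  have h2 : (2 : ZMod 2) = 0 := rfl
  refine closure_zero (par p) ?_ hx
  rintro _ (⟨a, b, ha, hb⟩ | ⟨a, ha⟩ | ⟨a, b, ha, hb, hab⟩)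
  · rw [map_sub, par_w, par_w, padicValInt.mul ha (pow_ne_zero _ hb), pow_two,
      padicValInt.mul hb hb]
    push_cast
    linear_combination (padicValInt p b : ZMod 2) * h2
  · rw [map_add, par_w, par_w]
    have : padicValInt p (-a) = padicValInt p a := by simp [padicValInt]
    rw [this]
    exact two_eq_zero' _
  · rw [map_sub, map_sub, map_add, par_w, par_w, par_w, par_w,
      padicValInt.mul (mul_ne_zero ha hb) hab, padicValInt.mul ha hb]
    push_cast
    linear_combination -(padicValInt p (a + b) : ZMod 2) * h2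

/-! ### the residue invariant -/

open Classical in
/-- the value of the residue invariant in terms of the valuation and the unit part -/
noncomputable def GG (p : ℕ) (k : ℕ) (r : ZMod p) : ZMod 4 :=
  if Even k then 0 else (if p % 4 = 1 then 0 else 1) + (if IsSquare r then 0 else 2)

theorem gam0_eq (p : ℕ) (hp : p.Prime) (k : ℕ) (u : ℤ) (hu : ¬ (p : ℤ) ∣ u) :
    gam0 p (p ^ k * u) = GG p k (u : ZMod p) := by
  have := Fact.mk hp
  have hp0 : (p : ℤ) ≠ 0 := by exact_mod_cast hp.ne_zero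
  have hu0 : u ≠ 0 := by rintro rfl; simp at hu
  have hv : padicValInt p (p ^ k * u) = k := by
    rw [padicValInt.mul (pow_ne_zero _ hp0) hu0, padicValInt.eq_zero_of_not_dvd hu, add_zero]
    have : padicValInt p ((p : ℤ) ^ k) = padicValNat p (p ^ k) := by
      rw [← padicValInt.of_nat]
      push_cast
      rfl
    rw [this, padicValNat.prime_pow]
  have hr : res p (p ^ k * u) = (u : ZMod p) := by
    rw [res, hv, Int.mul_ediv_cancel_left _ (pow_ne_zero _ hp0)]
  rw [gam0, hv, hr, GG]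

theorem exists_form (p : ℕ) (hp : p.Prime) (a : ℤ) (ha : a ≠ 0) :
    ∃ (k : ℕ) (u : ℤ), ¬ (p : ℤ) ∣ u ∧ a = p ^ k * u := by
  have hf : FiniteMultiplicity (p : ℤ) a :=
    Int.finiteMultiplicity_iff.mpr ⟨by simpa using hp.one_lt.ne', ha⟩
  obtain ⟨n, h1, h2⟩ := hf.exists_eq_pow_mul_and_not_dvd
  exact ⟨_, n, h2, h1⟩

theorem GG_parity {p k l : ℕ} (h : Even k ↔ Even l) (r : ZMod p) : GG p k r = GG p l r := by
  unfold GG
  simp only [h]

section

variable {p : ℕ} [Fact p.Prime]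

theorem isSquare_mul_sq {r s : ZMod p} (hs : s ≠ 0) : IsSquare (r * s ^ 2) ↔ IsSquare r := by
  constructor
  · rintro ⟨c, hc⟩
    refine ⟨c / s, ?_⟩
    field_simp
    linear_combination hc
  · rintro ⟨c, hc⟩
    exact ⟨c * s, by rw [hc]; ring⟩

theorem GG_mul_sq (k : ℕ) {r s : ZMod p} (hs : s ≠ 0) : GG p k (r * s ^ 2) = GG p k r := by
  have h := isSquare_mul_sq (r := r) hs
  unfold GG
  by_cases hq : IsSquare r
  · rw [if_pos hq, if_pos (h.mpr hq)]
  · rw [if_neg hq, if_neg (fun h' => hq (h.mp h'))]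

open Classical in
/-- the residue symbol as a sign -/
theorem GG_odd (h2 : p ≠ 2) {k : ℕ} (hk : ¬ Even k) {r : ZMod p} (hr : r ≠ 0) :
    GG p k r = (if p % 4 = 1 then 0 else 1) + 1 - ((quadraticChar (ZMod p) r : ℤ) : ZMod 4) := by
  have hF : ringChar (ZMod p) ≠ 2 := by rwa [ZMod.ringChar_zmod_n]
  unfold GG
  rw [if_neg hk]
  by_cases hs : IsSquare r
  · rw [if_pos hs, (quadraticChar_one_iff_isSquare hr).mpr hs]
    push_cast
    ring
  · rw [if_neg hs, (quadraticChar_neg_one_iff_not_isSquare (F := ZMod p)).mpr hs]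
    push_cast
    ring

theorem quad_val {r : ZMod p} (hr : r ≠ 0) :
    quadraticChar (ZMod p) r = 1 ∨ quadraticChar (ZMod p) r = -1 :=
  quadraticChar_dichotomy hr

theorem GG_neg (h2 : p ≠ 2) (k : ℕ) {r : ZMod p} (hr : r ≠ 0) : GG p k r + GG p k (-r) = 0 := by
  by_cases hk : Even k
  · simp [GG, hk]
  have hp := Fact.out (p := p.Prime)
  have hodd : p % 4 = 1 ∨ p % 4 = 3 := by
    have := hp.eq_two_or_odd
    omega
  have hF : ringChar (ZMod p) ≠ 2 := by rwa [ZMod.ringChar_zmod_n]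
  have hm : quadraticChar (ZMod p) (-r) = quadraticChar (ZMod p) (-1) * quadraticChar (ZMod p) r := by
    rw [← map_mul, neg_one_mul]
  rw [GG_odd h2 hk hr, GG_odd h2 hk (neg_ne_zero.mpr hr), hm]
  have hneg : (-1 : ZMod p) ≠ 0 := neg_ne_zero.mpr one_ne_zero
  rcases hodd with h | h
  · have h1 : quadraticChar (ZMod p) (-1) = 1 :=
      (quadraticChar_one_iff_isSquare hneg).mpr (ZMod.exists_sq_eq_neg_one_iff.mpr (by omega))
    rw [if_pos h, h1]
    rcases quad_val hr with h3 | h3 <;> rw [h3] <;> decide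
  · have h1 : quadraticChar (ZMod p) (-1) = -1 :=
      (quadraticChar_neg_one_iff_not_isSquare (F := ZMod p)).mpr
        (fun hs => (ZMod.exists_sq_eq_neg_one_iff.mp hs) h)
    rw [if_neg (by omega), h1]
    rcases quad_val hr with h3 | h3 <;> rw [h3] <;> decide

theorem GG_add (h2 : p ≠ 2) (k l : ℕ) (hkl : Even k ↔ Even l) {r s : ZMod p} (hr : r ≠ 0)
    (hs : s ≠ 0) (hrs : r + s ≠ 0) :
    GG p k r + GG p k s = GG p k (r + s) + GG p l (r * s * (r + s)) := by
  by_cases hk : Even k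
  · have hl := hkl.mp hk
    simp [GG, hk, hl]
  have hl : ¬ Even l := fun h => hk (hkl.mpr h)
  rw [GG_odd h2 hk hr, GG_odd h2 hk hs, GG_odd h2 hk hrs,
    GG_odd h2 hl (mul_ne_zero (mul_ne_zero hr hs) hrs), map_mul, map_mul]
  rcases quad_val hr with h3 | h3 <;> rcases quad_val hs with h4 | h4 <;>
    rcases quad_val hrs with h5 | h5 <;> rw [h3, h4, h5] <;> split_ifs <;> decide

end

theorem gam_sq_aux (p : ℕ) (hp : p.Prime) (a b : ℤ) (ha : a ≠ 0) (hb : b ≠ 0) :
    gam0 p (a * b ^ 2) = gam0 p a := by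
  have := Fact.mk hp
  obtain ⟨k, u, hu, rfl⟩ := exists_form p hp a ha
  obtain ⟨l, v, hv, rfl⟩ := exists_form p hp b hb
  have hpi := Nat.prime_iff_prime_int.mp hp
  have e : (p : ℤ) ^ k * u * (p ^ l * v) ^ 2 = p ^ (k + 2 * l) * (u * v ^ 2) := by ring
  have hnd : ¬ (p : ℤ) ∣ u * v ^ 2 := by
    intro h
    rcases hpi.dvd_or_dvd h with h | h
    · exact hu h
    · exact hv (hpi.dvd_of_dvd_pow h)
  have hv0 : (v : ZMod p) ≠ 0 := by rwa [Ne, ZMod.intCast_zmod_eq_zero_iff_dvd]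
  rw [e, gam0_eq p hp _ _ hnd, gam0_eq p hp _ _ hu]
  push_cast
  rw [GG_mul_sq _ hv0]
  exact GG_parity (by simp [Nat.even_add]) _

theorem gam_neg_aux (p : ℕ) (hp : p.Prime) (h2 : p ≠ 2) (a : ℤ) (ha : a ≠ 0) :
    gam0 p a + gam0 p (-a) = 0 := by
  have := Fact.mk hp
  obtain ⟨k, u, hu, rfl⟩ := exists_form p hp a ha
  have e : -((p : ℤ) ^ k * u) = p ^ k * (-u) := by ring
  have hu0 : (u : ZMod p) ≠ 0 := by rwa [Ne, ZMod.intCast_zmod_eq_zero_iff_dvd]
  rw [e, gam0_eq p hp _ _ hu, gam0_eq p hp _ _ (by rwa [dvd_neg])]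
  push_cast
  exact GG_neg h2 k hu0

theorem gam_add_aux (p : ℕ) (hp : p.Prime) (h2 : p ≠ 2) (k l : ℕ) (hkl : k ≤ l) (u v : ℤ)
    (hu : ¬ (p : ℤ) ∣ u) (hv : ¬ (p : ℤ) ∣ v) (hab : (p : ℤ) ^ k * u + p ^ l * v ≠ 0) :
    gam0 p (p ^ k * u) + gam0 p (p ^ l * v) = gam0 p (p ^ k * u + p ^ l * v) +
      gam0 p (p ^ k * u * (p ^ l * v) * (p ^ k * u + p ^ l * v)) := by
  have := Fact.mk hp
  have hpi := Nat.prime_iff_prime_int.mp hp
  have hu0 : (u : ZMod p) ≠ 0 := by rwa [Ne, ZMod.intCast_zmod_eq_zero_iff_dvd]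
  have hv0 : (v : ZMod p) ≠ 0 := by rwa [Ne, ZMod.intCast_zmod_eq_zero_iff_dvd]
  have hmul : ∀ x y : ℤ, ¬ (p : ℤ) ∣ x → ¬ (p : ℤ) ∣ y → ¬ (p : ℤ) ∣ x * y := by
    intro x y hx hy h
    rcases hpi.dvd_or_dvd h with h | h
    · exact hx h
    · exact hy h
  rcases Nat.lt_or_ge k l with hlt | hge
  · obtain ⟨m, rfl⟩ : ∃ m, l = k + (m + 1) := ⟨l - k - 1, by omega⟩
    have e1 : (p : ℤ) ^ k * u + p ^ (k + (m + 1)) * v = p ^ k * (u + p * (p ^ m * v)) := by ring
    have hs : ¬ (p : ℤ) ∣ u + p * (p ^ m * v) := by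
      intro h
      exact hu ((dvd_add_left (Dvd.intro _ rfl)).mp h)
    have e2 : (p : ℤ) ^ k * u * (p ^ (k + (m + 1)) * v) * (p ^ k * (u + p * (p ^ m * v))) =
        p ^ (k + (m + 1) + 2 * k) * (u * v * (u + p * (p ^ m * v))) := by ring
    rw [e1, e2, gam0_eq p hp _ _ hu, gam0_eq p hp _ _ hv, gam0_eq p hp _ _ hs,
      gam0_eq p hp _ _ (hmul _ _ (hmul _ _ hu hv) hs)]
    push_cast
    rw [CharP.cast_eq_zero]
    have e3 : (u : ZMod p) * v * (u + 0 * (0 ^ m * v)) = v * u ^ 2 := by ring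
    have e4 : (u : ZMod p) + 0 * (0 ^ m * v) = u := by ring
    rw [e3, e4, GG_mul_sq _ hu0]
    congr 1
    exact GG_parity (by simp [Nat.even_add]) _
  · obtain rfl : k = l := le_antisymm hkl hge
    have huv : u + v ≠ 0 := by
      intro h
      apply hab
      rw [← mul_add, h, mul_zero]
    obtain ⟨m, s, hs, hm⟩ := exists_form p hp (u + v) huv
    have hs0 : (s : ZMod p) ≠ 0 := by rwa [Ne, ZMod.intCast_zmod_eq_zero_iff_dvd]
    have e1 : (p : ℤ) ^ k * u + p ^ k * v = p ^ (k + m) * s := by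
      rw [← mul_add, hm]; ring
    have e2 : (p : ℤ) ^ k * u * (p ^ k * v) * (p ^ (k + m) * s) =
        p ^ (k + m + 2 * k) * (u * v * s) := by ring
    rw [e1, e2, gam0_eq p hp _ _ hu, gam0_eq p hp _ _ hv, gam0_eq p hp _ _ hs,
      gam0_eq p hp _ _ (hmul _ _ (hmul _ _ hu hv) hs)]
    rcases Nat.eq_zero_or_pos m with rfl | hmpos
    · have hc : (s : ZMod p) = u + v := by
        have : u + v = s := by simpa using hm
        rw [← this]; push_cast; ring
      push_cast
      rw [hc, add_zero]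
      exact GG_add h2 k _ (by simp [Nat.even_add]) hu0 hv0 (by rw [← hc]; exact hs0)
    · have hc : (v : ZMod p) = -u := by
        have h1 : ((u + v : ℤ) : ZMod p) = 0 := by
          rw [hm]
          push_cast
          rw [CharP.cast_eq_zero, zero_pow hmpos.ne', zero_mul]
        push_cast at h1
        linear_combination h1
      push_cast
      rw [hc, GG_neg h2 k hu0]
      have e3 : (u : ZMod p) * -u * s = (-s) * u ^ 2 := by ring
      have e4 : GG p (k + m + 2 * k) (-s : ZMod p) = GG p (k + m) (-s : ZMod p) :=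
        GG_parity (by simp [Nat.even_add]) _
      rw [e3, GG_mul_sq _ hu0, e4, GG_neg h2 (k + m) hs0]

theorem gam_Rel (p : ℕ) (hp : p.Prime) (h2 : p ≠ 2) {x : FreeAbelianGroup ℤ} (hx : x ∈ Rel) :
    gam p x = 0 := by
  refine closure_zero (gam p) ?_ hx
  rintro _ (⟨a, b, ha, hb⟩ | ⟨a, ha⟩ | ⟨a, b, ha, hb, hab⟩)
  · rw [map_sub, gam_w, gam_w, gam_sq_aux p hp a b ha hb, sub_self]
  · rw [map_add, gam_w, gam_w, gam_neg_aux p hp h2 a ha]
  · rw [map_sub, map_sub, map_add, gam_w, gam_w, gam_w, gam_w, sub_sub, sub_eq_zero]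
    obtain ⟨k, u, hu, rfl⟩ := exists_form p hp a ha
    obtain ⟨l, v, hv, rfl⟩ := exists_form p hp b hb
    rcases le_total k l with h | h
    · exact gam_add_aux p hp h2 k l h u v hu hv hab
    · have := gam_add_aux p hp h2 l k h v u hv hu (by rwa [add_comm])
      rw [add_comm (gam0 p (p ^ l * v)), add_comm ((p : ℤ) ^ l * v),
        mul_comm ((p : ℤ) ^ l * v) ((p : ℤ) ^ k * u)] at this
      exact this

theorem two_dvd_four : 2 ∣ 4 := by norm_num

theorem gam_eq (p : ℕ) (hp : p.Prime) (h2 : p ≠ 2) (x : FreeAbelianGroup ℤ) (hx : par p x = 0) :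
    gam p x = 0 ∨ gam p x = 2 := by
  have key : ∀ y : FreeAbelianGroup ℤ, (ZMod.castHom two_dvd_four (ZMod 2)) (gam p y) =
      if p % 4 = 1 then 0 else par p y := by
    intro y
    induction y using FreeAbelianGroup.induction_on with
    | zero => simp
    | of a =>
      have h1 := gam_w p a
      have h3 := par_w p a
      rw [w] at h1 h3
      rw [h1, h3, gam0]
      rcases Nat.even_or_odd (padicValInt p a) with he | ho
      · rw [if_pos he]
        have : (padicValInt p a : ZMod 2) = 0 := (ZMod.natCast_eq_zero_iff_even).mpr he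
        rw [this]
        simp
      · rw [if_neg (Nat.not_even_iff_odd.mpr ho)]
        have : (padicValInt p a : ZMod 2) = 1 := (ZMod.natCast_eq_one_iff_odd).mpr ho
        rw [this]
        split_ifs <;> decide
    | neg a h => rw [map_neg, map_neg, h, map_neg]; split_ifs <;> simp
    | add a b ha hb => rw [map_add, map_add, ha, hb, map_add]; split_ifs <;> simp
  have h := key x
  rw [hx, ite_self] at h
  revert h
  generalize gam p x = z
  revert z
  decide

end Pool.Agent.Work.MY
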