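import Mathlib
import Pool.Agent.Work.MP_b62148_ag.Meyer.Descent
import Pool.Agent.Work.MP_b62148_ag.Meyer.Homs

/-!
The descent theorems (module Descent of the proof of the theorem of Meyer).
-/

namespace Pool.Agent.Work.MY

theorem descent (p : ℕ) (hp : p.Prime) (h2 : p ≠ 2) {x : FreeAbelianGroup ℤ} (hx : x ∈ Sm p)
    (h1 : par p x = 0) (h4 : gam p x = 0) : ∃ y ∈ Sm (p - 1), x - y ∈ Rel :=
  Des.descent_aux hp h2 (fun _ h => par_Rel p hp h) (fun _ h => gam_Rel p hp h2 h) hx h1 h4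

theorem mem_Rel (N : ℕ) (x : FreeAbelianGroup ℤ) (hx : x ∈ Sm N) (hs : sgn x = 0)
    (h1 : ∀ p : ℕ, p.Prime → par p x = 0) (h4 : ∀ p : ℕ, p.Prime → p ≠ 2 → gam p x = 0) :
    x ∈ Rel :=
  Des.mem_Rel_aux (fun _ h => sgn_Rel h) (fun p hp _ h => par_Rel p hp h)
    (fun p hp h2 _ h => gam_Rel p hp h2 h) N x hx hs h1 h4

end Pool.Agent.Work.MY
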