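import Mathlib
import Pool.Agent.Work.MP_b62148_ag.Meyer.Defs
import Pool.Agent.Work.MP_b62148_ag.Meyer.Homs
import Pool.Agent.Work.MP_b62148_ag.Meyer.DescentMain

/-!
The theorem of Meyer for diagonal forms in five variables, from the description of the relations
of the Witt group and the existence of a suitable twist.
-/

namespace Pool.Agent.Work.MY

/-- the statement of the module Neut -/
def NeutStmt : Prop := ∀ {m : ℕ} (a : Fin m → ℤ), (∀ i, a i ≠ 0) →
    ∑ i, w (a i) ∈ Rel → Neut fun i => (a i : ℚ)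

/-- the statement of the module Twist -/
def TwistStmt : Prop := ∀ (S : Finset ℕ), (∀ p ∈ S, p.Prime ∧ p ≠ 2) → ∀ κ : ℤ, κ = 1 ∨ κ = -1 →
    ∃ e f : ℤ, 0 < κ * e ∧ 0 < κ * f ∧ ∀ p : ℕ, p.Prime → p ≠ 2 →
      gam p (w e + w f + w (-(e * f))) = if p ∈ S then 2 else 0

lemma gam_w_neg (p : ℕ) (hp : p.Prime) (h2 : p ≠ 2) (a : ℤ) (ha : a ≠ 0) :
    gam p (w (-a)) = - gam p (w a) := by
  have h : w a + w (-a) ∈ Rel := AddSubgroup.subset_closure (IsRel.hyp a ha)
  have := gam_Rel p hp h2 h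
  rw [map_add] at this
  exact eq_neg_of_add_eq_zero_right this

lemma mem_Sm_of {N : ℕ} (hN : N ≠ 0) {a : ℤ} (ha : a ≠ 0) (h : a.natAbs ∣ N) : w a ∈ Sm N := by
  apply AddSubgroup.subset_closure
  refine ⟨a, ha, ?_, rfl⟩
  intro p hp hpa
  exact Nat.le_of_dvd (Nat.pos_of_ne_zero hN) ((Int.natCast_dvd.mp hpa).trans h)

/-- the number of negative entries of five nonzero integers with positive product which are not
all positive is 2 or 4 -/
lemma sign_cases (c : Fin 5 → ℤ) (h0 : ∀ i, c i ≠ 0) (hP : 0 < ∏ i, c i)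
    (hneg : ∃ i, c i < 0) : ∑ i, Int.sign (c i) = 1 ∨ ∑ i, Int.sign (c i) = -3 := by
  have hs : ∏ i, Int.sign (c i) = 1 := by
    have h1 : Int.sign (∏ i, c i) = ∏ i, Int.sign (c i) := by
      rw [Fin.prod_univ_five, Fin.prod_univ_five, Int.sign_mul, Int.sign_mul, Int.sign_mul,
        Int.sign_mul]
    rw [← h1]
    exact Int.sign_eq_one_of_pos hP
  have hv : ∀ i, Int.sign (c i) = 1 ∨ Int.sign (c i) = -1 := by
    intro i
    rcases lt_or_gt_of_ne (h0 i) with h | h
    · exact Or.inr (Int.sign_eq_neg_one_of_neg h)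
    · exact Or.inl (Int.sign_eq_one_of_pos h)
  obtain ⟨j, hj⟩ := hneg
  have hj' : Int.sign (c j) = -1 := Int.sign_eq_neg_one_of_neg hj
  rw [Fin.prod_univ_five] at hs
  rw [Fin.sum_univ_five]
  have h0' := hv 0
  have h1' := hv 1
  have h2' := hv 2
  have h3' := hv 3
  have h4' := hv 4
  have hjj : Int.sign (c 0) = -1 ∨ Int.sign (c 1) = -1 ∨ Int.sign (c 2) = -1 ∨
      Int.sign (c 3) = -1 ∨ Int.sign (c 4) = -1 := by
    fin_cases j <;> simp_all
  generalize Int.sign (c 0) = s0 at *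
  generalize Int.sign (c 1) = s1 at *
  generalize Int.sign (c 2) = s2 at *
  generalize Int.sign (c 3) = s3 at *
  generalize Int.sign (c 4) = s4 at *
  rcases h0' with rfl | rfl <;> rcases h1' with rfl | rfl <;> rcases h2' with rfl | rfl <;>
    rcases h3' with rfl | rfl <;> rcases h4' with rfl | rfl <;> revert hs hjj <;> decide

lemma final_int (HN : NeutStmt) (HT : TwistStmt) (c : Fin 5 → ℤ) (h0 : ∀ i, c i ≠ 0)
    (r : ℤ) (hr : ∏ i, c i = r ^ 2) (hneg : ∃ i, c i < 0) :
    ∃ x : Fin 5 → ℚ, x ≠ 0 ∧ ∑ i, (c i : ℚ) * x i ^ 2 = 0 := by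
  classical
  have hP0 : ∏ i, c i ≠ 0 := Finset.prod_ne_zero_iff.mpr fun i _ => h0 i
  have hP : 0 < ∏ i, c i := lt_of_le_of_ne (by rw [hr]; positivity) hP0.symm
  set x0 : FreeAbelianGroup ℤ := ∑ i, w (c i) with hx0
  have hsgn : sgn x0 = 1 ∨ sgn x0 = -3 := by
    have : sgn x0 = ∑ i, Int.sign (c i) := by
      rw [hx0, map_sum]
      exact Finset.sum_congr rfl fun i _ => sgn_w (c i)
    rw [this]
    exact sign_cases c h0 hP hneg
  have hpar : ∀ p : ℕ, p.Prime → par p x0 = 0 := by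
    intro p hp
    have := Fact.mk hp
    have h1 : par p x0 = ∑ i, (padicValInt p (c i) : ZMod 2) := by
      rw [hx0, map_sum]
      exact Finset.sum_congr rfl fun i _ => par_w p (c i)
    have hr0 : r ≠ 0 := by
      rintro rfl
      exact hP0 (by rw [hr]; norm_num)
    have h2 : ∑ i, padicValInt p (c i) = 2 * padicValInt p r := by
      have h3 : padicValInt p (∏ i, c i) = 2 * padicValInt p r := by
        rw [hr, pow_two, padicValInt.mul hr0 hr0]
        ring
      rw [← h3, Fin.prod_univ_five, Fin.sum_univ_five]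
      rw [padicValInt.mul (by simp [h0]) (h0 4), padicValInt.mul (by simp [h0]) (h0 3),
        padicValInt.mul (by simp [h0]) (h0 2), padicValInt.mul (h0 0) (h0 1)]
    rw [h1]
    have h4 : ((∑ i, padicValInt p (c i) : ℕ) : ZMod 2) = 0 := by
      rw [h2]
      push_cast
      have : (2 : ZMod 2) = 0 := rfl
      rw [this, zero_mul]
    rw [← h4]
    push_cast
    rfl
  -- the set of odd primes with nontrivial residue
  set S : Finset ℕ := (∏ i, c i).natAbs.primeFactors.filter fun p => p ≠ 2 ∧ gam p x0 = 2 with hS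
  have hSp : ∀ p ∈ S, p.Prime ∧ p ≠ 2 := by
    intro p hp
    rw [hS, Finset.mem_filter] at hp
    exact ⟨Nat.prime_of_mem_primeFactors hp.1, hp.2.1⟩
  have hgam : ∀ p : ℕ, p.Prime → p ≠ 2 → gam p x0 = if p ∈ S then 2 else 0 := by
    intro p hp h2
    rcases gam_eq p hp h2 x0 (hpar p hp) with h | h
    · rw [if_neg, h]
      intro hpS
      rw [hS, Finset.mem_filter] at hpS
      rw [h] at hpS
      exact absurd hpS.2.2 (by decide)
    · rw [if_pos, h]
      rw [hS, Finset.mem_filter]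
      refine ⟨?_, h2, h⟩
      rw [Nat.mem_primeFactors]
      refine ⟨hp, ?_, by simpa using hP0⟩
      by_contra hdiv
      have hd : ∀ i, ¬ (p : ℤ) ∣ c i := by
        intro i hi
        apply hdiv
        have : (p : ℤ) ∣ ∏ i, c i := hi.trans (Finset.dvd_prod_of_mem c (Finset.mem_univ i))
        exact Int.natCast_dvd.mp this
      have h5 : gam p x0 = 0 := by
        rw [hx0, map_sum]
        apply Finset.sum_eq_zero
        intro i _
        rw [gam_w, gam0, if_pos]
        rw [padicValInt.eq_zero_of_not_dvd (hd i)]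
        exact Even.zero
      rw [h5] at h
      exact absurd h (by decide)
  -- the sign
  obtain ⟨κ, hκ, hκs⟩ : ∃ κ : ℤ, (κ = 1 ∨ κ = -1) ∧ sgn x0 = 2 * κ - 1 := by
    rcases hsgn with h | h
    · exact ⟨1, Or.inl rfl, by rw [h]; norm_num⟩
    · exact ⟨-1, Or.inr rfl, by rw [h]; norm_num⟩
  obtain ⟨e, f, he, hf, hef⟩ := HT S hSp κ hκ
  have he0 : e ≠ 0 := by rintro rfl; simp at he
  have hf0 : f ≠ 0 := by rintro rfl; simp at hf
  have hef0 : e * f ≠ 0 := mul_ne_zero he0 hf0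
  set x : FreeAbelianGroup ℤ := x0 + w (-e) + w (-f) + w (e * f) with hx
  set N : ℕ := (∏ i, c i).natAbs * (e * f).natAbs with hN
  have hN0 : N ≠ 0 := by
    rw [hN]
    exact mul_ne_zero (by simpa using hP0) (by simpa using ⟨he0, hf0⟩)
  have hxS : x ∈ Sm N := by
    rw [hx, hx0]
    refine add_mem (add_mem (add_mem (sum_mem fun i _ => ?_) ?_) ?_) ?_
    · exact mem_Sm_of hN0 (h0 i) (Dvd.dvd.mul_right
        (Int.natAbs_dvd_natAbs.mpr (Finset.dvd_prod_of_mem c (Finset.mem_univ i))) _)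
    · exact mem_Sm_of hN0 (neg_ne_zero.mpr he0) (by
        rw [Int.natAbs_neg]
        exact Dvd.dvd.mul_left (Int.natAbs_dvd_natAbs.mpr (Dvd.intro f rfl)) _)
    · exact mem_Sm_of hN0 (neg_ne_zero.mpr hf0) (by
        rw [Int.natAbs_neg]
        exact Dvd.dvd.mul_left (Int.natAbs_dvd_natAbs.mpr (Dvd.intro_left e rfl)) _)
    · exact mem_Sm_of hN0 hef0 (Dvd.dvd.mul_left dvd_rfl _)
  have hxs : sgn x = 0 := by
    rw [hx, map_add, map_add, map_add, hκs, sgn_w, sgn_w, sgn_w]
    rcases hκ with rfl | rfl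
    · have h1 : 0 < e := by simpa using he
      have h2 : 0 < f := by simpa using hf
      rw [Int.sign_eq_neg_one_of_neg (by linarith : -e < 0),
        Int.sign_eq_neg_one_of_neg (by linarith : -f < 0),
        Int.sign_eq_one_of_pos (mul_pos h1 h2)]
      norm_num
    · have h1 : 0 < -e := by linarith
      have h2 : 0 < -f := by linarith
      rw [Int.sign_eq_one_of_pos h1, Int.sign_eq_one_of_pos h2,
        Int.sign_eq_one_of_pos (by nlinarith : 0 < e * f)]
      norm_num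
  have hxp : ∀ p : ℕ, p.Prime → par p x = 0 := by
    intro p hp
    have := Fact.mk hp
    rw [hx, map_add, map_add, map_add, hpar p hp, par_w, par_w, par_w,
      padicValInt.mul he0 hf0]
    have h1 : padicValInt p (-e) = padicValInt p e := by
      simp [padicValInt]
    have h2 : padicValInt p (-f) = padicValInt p f := by
      simp [padicValInt]
    rw [h1, h2]
    push_cast
    have h3 : ∀ u v : ZMod 2, 0 + u + v + (u + v) = 0 := by decide
    exact h3 _ _
  have hxg : ∀ p : ℕ, p.Prime → p ≠ 2 → gam p x = 0 := by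
    intro p hp h2
    have h3 := hef p hp h2
    have h4 : gam p (w (e * f)) = - gam p (w (-(e * f))) := by
      have := gam_w_neg p hp h2 (-(e * f)) (neg_ne_zero.mpr hef0)
      rwa [neg_neg] at this
    rw [map_add, map_add] at h3
    rw [hx, map_add, map_add, map_add, hgam p hp h2, gam_w_neg p hp h2 e he0,
      gam_w_neg p hp h2 f hf0, h4, ← h3]
    abel
  have hxR : x ∈ Rel := mem_Rel N x hxS hxs hxp hxg
  -- the neutral form in eight variables
  set b : Fin 8 → ℤ := ![c 0, c 1, c 2, c 3, c 4, -e, -f, e * f] with hb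
  have hb0 : ∀ i, b i ≠ 0 := by
    intro i
    fin_cases i <;> simp [hb, h0, he0, hf0]
  have hbx : ∑ i, w (b i) = x := by
    rw [Fin.sum_univ_eight, hx, hx0, Fin.sum_univ_five]
    simp [hb]
  obtain ⟨M, hM, hMr⟩ := HN b hb0 (by rw [hbx]; exact hxR)
  have hMr' : Module.finrank ℚ M = 4 := by
    rw [Fintype.card_fin] at hMr
    omega
  -- a vector with three zero coordinates
  let φ : M →ₗ[ℚ] (Fin 3 → ℚ) := LinearMap.pi fun j => (LinearMap.proj (j.natAdd 5)).comp M.subtype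
  have hker : LinearMap.ker φ ≠ ⊥ := by
    apply LinearMap.ker_ne_bot_of_finrank_lt
    rw [hMr', Module.finrank_fin_fun]
    norm_num
  obtain ⟨z, hz, hz0⟩ := Submodule.exists_mem_ne_zero_of_ne_bot hker
  have hzc : ∀ j : Fin 3, (z : Fin 8 → ℚ) (j.natAdd 5) = 0 := by
    intro j
    have := congrFun (LinearMap.mem_ker.mp hz) j
    simpa [φ] using this
  have h5 : (z : Fin 8 → ℚ) 5 = 0 := hzc 0
  have h6 : (z : Fin 8 → ℚ) 6 = 0 := hzc 1
  have h7 : (z : Fin 8 → ℚ) 7 = 0 := hzc 2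
  refine ⟨fun i => (z : Fin 8 → ℚ) (i.castAdd 3), ?_, ?_⟩
  · intro h
    apply hz0
    apply Subtype.ext
    funext i
    have h8 : ∀ i : Fin 5, (z : Fin 8 → ℚ) (i.castAdd 3) = 0 := fun i => congrFun h i
    have e0 : (z : Fin 8 → ℚ) 0 = 0 := h8 0
    have e1 : (z : Fin 8 → ℚ) 1 = 0 := h8 1
    have e2 : (z : Fin 8 → ℚ) 2 = 0 := h8 2
    have e3 : (z : Fin 8 → ℚ) 3 = 0 := h8 3
    have e4 : (z : Fin 8 → ℚ) 4 = 0 := h8 4
    fin_cases i
    · exact e0
    · exact e1
    · exact e2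
    · exact e3
    · exact e4
    · exact h5
    · exact h6
    · exact h7
  · have h9 := hM z z.2
    rw [Fin.sum_univ_eight, h5, h6, h7] at h9
    rw [Fin.sum_univ_five]
    have h10 : b 0 = c 0 := rfl
    have h11 : b 1 = c 1 := rfl
    have h12 : b 2 = c 2 := rfl
    have h13 : b 3 = c 3 := rfl
    have h14 : b 4 = c 4 := rfl
    simp only [h10, h11, h12, h13, h14] at h9
    have h15 : (c 0 : ℚ) * (z : Fin 8 → ℚ) 0 ^ 2 + c 1 * (z : Fin 8 → ℚ) 1 ^ 2 +
      c 2 * (z : Fin 8 → ℚ) 2 ^ 2 + c 3 * (z : Fin 8 → ℚ) 3 ^ 2 + c 4 * (z : Fin 8 → ℚ) 4 ^ 2 = 0 := by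
      linear_combination h9
    exact h15

theorem meyer5_of (HN : NeutStmt) (HT : TwistStmt) (a : Fin 5 → ℚ) (h0 : ∀ i, a i ≠ 0)
    (hpos : ∃ i, 0 < a i) (hneg : ∃ i, a i < 0) :
    ∃ x : Fin 5 → ℚ, x ≠ 0 ∧ ∑ i, a i * x i ^ 2 = 0 := by
  classical
  -- common denominator
  set D : ℕ := ∏ i, (a i).den with hD
  have hD0 : (D : ℚ) ≠ 0 := by
    rw [hD]
    push_cast
    exact Finset.prod_ne_zero_iff.mpr fun i _ => by exact_mod_cast (a i).den_ne_zero
  have hDpos : (0 : ℚ) < D := lt_of_le_of_ne (by positivity) hD0.symm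
  have hA : ∀ i, ∃ A : ℤ, (A : ℚ) = D * a i := by
    intro i
    refine ⟨(a i).num * ∏ j ∈ Finset.univ.erase i, ((a j).den : ℤ), ?_⟩
    have h1 : (D : ℚ) = (a i).den * ∏ j ∈ Finset.univ.erase i, ((a j).den : ℚ) := by
      rw [hD, ← Finset.mul_prod_erase Finset.univ (fun j => (a j).den) (Finset.mem_univ i)]
      push_cast
      rfl
    rw [h1]
    push_cast
    have h2 : ((a i).den : ℚ) * a i = (a i).num := Rat.den_mul_eq_num (a i)
    rw [← h2]
    ring
  choose A hA using hA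
  have hA0 : ∀ i, A i ≠ 0 := by
    intro i h
    have := hA i
    rw [h] at this
    push_cast at this
    exact mul_ne_zero hD0 (h0 i) this.symm
  set P : ℤ := ∏ i, A i with hP
  have hP0 : P ≠ 0 := Finset.prod_ne_zero_iff.mpr fun i _ => hA0 i
  have hPq : (P : ℚ) ≠ 0 := by exact_mod_cast hP0
  obtain ⟨x, hx0, hx⟩ := final_int HN HT (fun i => A i * P) (fun i => mul_ne_zero (hA0 i) hP0)
    (P ^ 3) (by
      rw [Finset.prod_mul_distrib, ← hP, Finset.prod_const, Finset.card_univ, Fintype.card_fin]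
      ring) (by
      obtain ⟨i, hi⟩ := hpos
      obtain ⟨j, hj⟩ := hneg
      have hi' : 0 < A i := by
        have : (0 : ℚ) < A i := by rw [hA i]; positivity
        exact_mod_cast this
      have hj' : A j < 0 := by
        have : (A j : ℚ) < 0 := by rw [hA j]; exact mul_neg_of_pos_of_neg hDpos hj
        exact_mod_cast this
      rcases lt_or_gt_of_ne hP0 with h | h
      · exact ⟨i, mul_neg_of_pos_of_neg hi' h⟩
      · exact ⟨j, mul_neg_of_neg_of_pos hj' h⟩)
  refine ⟨x, hx0, ?_⟩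
  have h1 : ∑ i, ((A i * P : ℤ) : ℚ) * x i ^ 2 = (P * D) * ∑ i, a i * x i ^ 2 := by
    rw [Finset.mul_sum]
    refine Finset.sum_congr rfl fun i _ => ?_
    push_cast
    rw [hA i]
    ring
  rw [h1] at hx
  exact (mul_eq_zero.mp hx).resolve_left (mul_ne_zero hPq hD0)

end Pool.Agent.Work.MY
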