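import Mathlib

/-!
The module Form: rational isotropic vectors near a real one, from the theorem of Meyer in
five variables.
-/

namespace Pool.Agent.Work.MY

open Module Matrix

/-- the bilinear form with matrix `M` over a `ℚ`-algebra -/
noncomputable def mb {σ : Type} [Fintype σ] (M : Matrix σ σ ℚ) {R : Type} [CommRing R] [Algebra ℚ R]
    (x y : σ → R) : R :=
  ∑ i, ∑ j, algebraMap ℚ R (M i j) * x i * y j

section

variable {σ : Type} [Fintype σ] (M : Matrix σ σ ℚ)

section R

variable {R : Type} [CommRing R] [Algebra ℚ R]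

theorem mb_add_left (x x' y : σ → R) : mb M (x + x') y = mb M x y + mb M x' y := by
  simp only [mb, Pi.add_apply, ← Finset.sum_add_distrib]
  refine Finset.sum_congr rfl fun i _ => Finset.sum_congr rfl fun j _ => ?_
  ring

theorem mb_smul_left (c : R) (x y : σ → R) : mb M (c • x) y = c * mb M x y := by
  simp only [mb, Pi.smul_apply, smul_eq_mul, Finset.mul_sum]
  refine Finset.sum_congr rfl fun i _ => Finset.sum_congr rfl fun j _ => ?_
  ring

variable {M} in
theorem mb_comm (hM : M.IsSymm) (x y : σ → R) : mb M x y = mb M y x := by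
  unfold mb
  rw [Finset.sum_comm]
  refine Finset.sum_congr rfl fun i _ => Finset.sum_congr rfl fun j _ => ?_
  rw [hM.apply i j]
  ring

/-- as a bilinear map -/
noncomputable def bl (R : Type) [CommRing R] [Algebra ℚ R] : LinearMap.BilinForm R (σ → R) :=
  LinearMap.mk₂ R (fun x y => mb M x y) (mb_add_left M) (mb_smul_left M)
    (by
      intro x y y'
      simp only [mb, Pi.add_apply, ← Finset.sum_add_distrib]
      refine Finset.sum_congr rfl fun i _ => Finset.sum_congr rfl fun j _ => ?_
      ring)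
    (by
      intro c x y
      simp only [mb, Pi.smul_apply, smul_eq_mul, Finset.mul_sum]
      refine Finset.sum_congr rfl fun i _ => Finset.sum_congr rfl fun j _ => ?_
      ring)

theorem bl_apply (x y : σ → R) : bl M R x y = mb M x y := rfl

end R

/-- the inclusion of rational vectors in the real vectors -/
def cst : (σ → ℚ) →ₗ[ℚ] (σ → ℝ) where
  toFun x i := (x i : ℝ)
  map_add' x y := by ext i; simp
  map_smul' c x := by ext i; simp [Algebra.smul_def]

omit [Fintype σ] in
theorem cst_apply (x : σ → ℚ) : cst x = fun i => (x i : ℝ) := rfl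

theorem bl_cst (x y : σ → ℚ) : bl M ℝ (cst x) (cst y) = ((bl M ℚ x y : ℚ) : ℝ) := by
  simp [bl_apply, mb, cst_apply]

end

theorem exists_isotropic_of_meyer
    (meyer5 : ∀ (a : Fin 5 → ℚ), (∀ i, a i ≠ 0) → (∃ i, 0 < a i) → (∃ i, a i < 0) →
      ∃ x : Fin 5 → ℚ, x ≠ 0 ∧ ∑ i, a i * x i ^ 2 = 0)
    {σ : Type} [Fintype σ] (M : Matrix σ σ ℚ) (hM : M.IsSymm)
    (hr : 7 ≤ M.rank) (p : σ → ℚ) (hp : mb M p p = 0) (hp0 : ∃ u : σ → ℚ, mb M p u ≠ 0)
    (x : σ → ℝ) (hx : mb M (fun i => (p i : ℝ)) x = 0) (hxx : mb M x x = 0)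
    (hns : ∃ u : σ → ℝ, mb M (fun i => (p i : ℝ)) u = 0 ∧ mb M x u ≠ 0) :
    ∃ y : σ → ℚ, mb M p y = 0 ∧ mb M y y = 0 ∧ mb M (fun i => (y i : ℝ)) x ≠ 0 := by
  classical
  obtain ⟨e, he⟩ := hp0
  set b := bl M ℚ with hb
  set bR := bl M ℝ with hbR
  have hsym : ∀ y z, b y z = b z y := fun y z => mb_comm hM y z
  have hsymR : ∀ y z, bR y z = bR z y := fun y z => mb_comm hM y z
  have he' : b p e ≠ 0 := he
  let T : Submodule ℚ (σ → ℚ) := LinearMap.ker (b p)
  have hT : ∀ y, y ∈ T ↔ b p y = 0 := fun y => LinearMap.mem_ker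
  let bT : LinearMap.BilinForm ℚ T := LinearMap.BilinForm.restrict b T
  have hbT : ∀ y z : T, bT y z = b y z := fun y z => rfl
  have hbTs : LinearMap.IsSymm bT := ⟨fun y z => by
    simp only [hbT]; exact hsym _ _⟩
  obtain ⟨n, v, hv⟩ : ∃ (n : ℕ) (v : Basis (Fin n) ℚ T), ∀ i j, i ≠ j → bT (v i) (v j) = 0 := by
    obtain ⟨v0, hv0⟩ := LinearMap.BilinForm.exists_orthogonal_basis hbTs
    exact ⟨_, v0, fun i j h => hv0 h⟩
  have hvo : ∀ i j, i ≠ j → b (v i) (v j) = 0 := fun i j hij => hv i j hij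
  -- expansion of rational vectors
  have hexp : ∀ y ∈ T, ∃ c : Fin n → ℚ, y = ∑ i, c i • (v i : σ → ℚ) := by
    intro y hy
    refine ⟨fun i => v.repr ⟨y, hy⟩ i, ?_⟩
    have h1 := congrArg (fun z : T => (z : σ → ℚ)) (v.sum_repr ⟨y, hy⟩)
    simp only at h1
    rw [AddSubmonoidClass.coe_finsetSum] at h1
    exact h1.symm
  set J : Finset (Fin n) := Finset.univ.filter (fun i => b (v i) (v i) ≠ 0) with hJ
  -- at least five nonzero diagonal entries
  have hJ5 : 5 ≤ J.card := by
    let Φ : (σ → ℚ) →ₗ[ℚ] ((J → ℚ) × ℚ × ℚ) :=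
      (LinearMap.pi (fun i : J => b (v i : σ → ℚ))).prod ((b p).prod (b e))
    have hker : LinearMap.ker Φ ≤ LinearMap.ker M.mulVecLin := by
      intro y hy
      rw [LinearMap.mem_ker] at hy
      have h1 : ∀ i : J, b (v i : σ → ℚ) y = 0 := by
        intro i
        have := congrArg (fun t => t.1 i) hy
        simpa [Φ] using this
      have h2 : b p y = 0 := by
        have := congrArg (fun t => t.2.1) hy
        simpa [Φ] using this
      have h3 : b e y = 0 := by
        have := congrArg (fun t => t.2.2) hy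
        simpa [Φ] using this
      obtain ⟨c, hc⟩ := hexp y ((hT y).mpr h2)
      have h4 : ∀ i, b (v i : σ → ℚ) y = 0 := by
        intro i
        by_cases hi : b (v i : σ → ℚ) (v i) = 0
        · rw [hc, map_sum]
          apply Finset.sum_eq_zero
          intro j _
          rw [map_smul]
          by_cases hij : i = j
          · subst hij; rw [hi, smul_zero]
          · rw [hvo i j hij, smul_zero]
        · exact h1 ⟨i, by rw [hJ]; simp [hi]⟩
      have h5 : ∀ z ∈ T, b z y = 0 := by
        intro z hz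
        obtain ⟨d, hd⟩ := hexp z hz
        rw [hd, map_sum, LinearMap.sum_apply]
        apply Finset.sum_eq_zero
        intro j _
        rw [map_smul, LinearMap.smul_apply, h4, smul_zero]
      have h6 : ∀ z, b z y = 0 := by
        intro z
        have h7 : z - (b p z / b p e) • e ∈ T := by
          rw [hT, map_sub, map_smul, smul_eq_mul, div_mul_cancel₀ _ he', sub_self]
        have h8 : z = (z - (b p z / b p e) • e) + (b p z / b p e) • e := by abel
        rw [h8, map_add, LinearMap.add_apply, h5 _ h7, map_smul, LinearMap.smul_apply, h3,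
          smul_zero, add_zero]
      rw [LinearMap.mem_ker, Matrix.mulVecLin_apply]
      funext i
      have h9 := h6 (Pi.single i 1)
      have h10 : b (Pi.single i 1) y = (M *ᵥ y) i := by
        change mb M _ _ = _
        rw [mb, Finset.sum_eq_single i]
        · simp [Matrix.mulVec, dotProduct]
        · intro j _ hji
          simp [Pi.single_apply, hji]
        · simp
      rw [← h10, h9]
      rfl
    have h1 := LinearMap.finrank_range_add_finrank_ker Φ
    have h2 := LinearMap.finrank_range_add_finrank_ker M.mulVecLin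
    have h3 : finrank ℚ (LinearMap.ker Φ) ≤ finrank ℚ (LinearMap.ker M.mulVecLin) :=
      Submodule.finrank_mono hker
    have h4 : finrank ℚ (LinearMap.range Φ) ≤ J.card + 2 := by
      refine (Submodule.finrank_le _).trans ?_
      simp [Module.finrank_prod]
    have h5 : M.rank = finrank ℚ (LinearMap.range M.mulVecLin) := rfl
    omega
  -- expansion of real vectors
  have hexpR : ∀ y : σ → ℝ, bR (cst p) y = 0 → ∃ c : Fin n → ℝ, y = ∑ i, c i • cst (v i : σ → ℚ) := by
    intro y hy
    have h1 : ∀ j : σ, ∃ r : Fin n → ℚ,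
        (Pi.single j 1 : σ → ℚ) - (b p (Pi.single j 1) / b p e) • e = ∑ i, r i • (v i : σ → ℚ) := by
      intro j
      apply hexp
      rw [hT, map_sub, map_smul, smul_eq_mul, div_mul_cancel₀ _ he', sub_self]
    choose r hr using h1
    refine ⟨fun i => ∑ j, y j * (r j i : ℝ), ?_⟩
    have h2 : ∀ j, cst (Pi.single j 1 : σ → ℚ) =
        ((b p (Pi.single j 1) : ℝ) / (b p e : ℝ)) • cst e + ∑ i, (r j i : ℝ) • cst (v i : σ → ℚ) := by
      intro j
      have h3 := congrArg cst (hr j)
      rw [map_sub, map_sum] at h3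
      funext k
      have h4 := congrFun h3 k
      simp only [cst_apply, Pi.sub_apply, Finset.sum_apply, Pi.add_apply, Pi.smul_apply,
        smul_eq_mul] at h4 ⊢
      push_cast at h4 ⊢
      linarith
    have h5 : y = ∑ j, y j • cst (Pi.single j 1 : σ → ℚ) := by
      funext k
      simp only [cst_apply, Finset.sum_apply, Pi.smul_apply, smul_eq_mul]
      rw [Finset.sum_eq_single k]
      · simp
      · intro j _ hjk
        simp [Pi.single_apply, Ne.symm hjk]
      · simp
    have h6 : ∑ j, y j * (b p (Pi.single j 1) : ℝ) = 0 := by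
      rw [h5, map_sum] at hy
      rw [← hy]
      apply Finset.sum_congr rfl
      intro j _
      rw [map_smul, hbR, bl_cst, smul_eq_mul]
    calc y = ∑ j, y j • cst (Pi.single j 1 : σ → ℚ) := h5
      _ = ∑ j, y j • (((b p (Pi.single j 1) : ℝ) / (b p e : ℝ)) • cst e +
            ∑ i, (r j i : ℝ) • cst (v i : σ → ℚ)) := by
          apply Finset.sum_congr rfl; intro j _; rw [h2 j]
      _ = (∑ j, y j * (b p (Pi.single j 1) : ℝ)) • ((1 / (b p e : ℝ)) • cst e) +
            ∑ i, (∑ j, y j * (r j i : ℝ)) • cst (v i : σ → ℚ) := by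
          simp only [smul_add, Finset.sum_add_distrib, Finset.smul_sum, smul_smul, Finset.sum_smul]
          congr 1
          · rw [← Finset.sum_smul, Finset.sum_mul]
            congr 1
            apply Finset.sum_congr rfl; intro j _; ring
          · rw [Finset.sum_comm]
      _ = ∑ i, (∑ j, y j * (r j i : ℝ)) • cst (v i : σ → ℚ) := by rw [h6, zero_smul, zero_add]
  obtain ⟨c, hc⟩ := hexpR x hx
  -- the values of the form
  have hval : ∀ i, bR (cst (v i : σ → ℚ)) x = c i * (b (v i) (v i) : ℝ) := by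
    intro i
    rw [hc, map_sum, Finset.sum_eq_single i]
    · rw [map_smul, hbR, bl_cst, smul_eq_mul]
    · intro j _ hj
      rw [map_smul, hbR, bl_cst, ← hb, hvo i j (Ne.symm hj)]
      simp
    · simp
  have hxx' : ∑ i, c i ^ 2 * (b (v i) (v i) : ℝ) = 0 := by
    have h1 : bR x x = 0 := hxx
    nth_rewrite 1 [hc] at h1
    rw [map_sum, LinearMap.sum_apply] at h1
    rw [← h1]
    apply Finset.sum_congr rfl
    intro i _
    rw [map_smul, LinearMap.smul_apply, hval, smul_eq_mul]
    ring
  obtain ⟨i0, hi0⟩ : ∃ i, c i * (b (v i) (v i) : ℝ) ≠ 0 := by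
    by_contra hcon
    push Not at hcon
    obtain ⟨u, hu1, hu2⟩ := hns
    apply hu2
    obtain ⟨d, hd⟩ := hexpR u hu1
    change bR x u = 0
    rw [hsymR, hd, map_sum, LinearMap.sum_apply]
    apply Finset.sum_eq_zero
    intro i _
    rw [map_smul, LinearMap.smul_apply, hval, hcon i, smul_zero]
  have hpos : ∃ i, 0 < c i ^ 2 * (b (v i) (v i) : ℝ) := by
    by_contra hcon
    push Not at hcon
    have h1 := (Finset.sum_eq_zero_iff_of_nonpos (fun i _ => hcon i)).mp hxx' i0 (Finset.mem_univ _)
    apply hi0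
    rcases mul_eq_zero.mp h1 with h2 | h2
    · rw [pow_eq_zero_iff two_ne_zero] at h2; rw [h2, zero_mul]
    · rw [h2, mul_zero]
  have hneg : ∃ i, c i ^ 2 * (b (v i) (v i) : ℝ) < 0 := by
    by_contra hcon
    push Not at hcon
    have h1 := (Finset.sum_eq_zero_iff_of_nonneg (fun i _ => hcon i)).mp hxx' i0 (Finset.mem_univ _)
    apply hi0
    rcases mul_eq_zero.mp h1 with h2 | h2
    · rw [pow_eq_zero_iff two_ne_zero] at h2; rw [h2, zero_mul]
    · rw [h2, mul_zero]
  obtain ⟨i1, hi1⟩ := hpos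
  obtain ⟨i2, hi2⟩ := hneg
  have hi1' : 0 < b (v i1) (v i1) := by
    have : (0 : ℝ) < (b (v i1) (v i1) : ℝ) := by
      by_contra hcon
      have := mul_nonpos_of_nonneg_of_nonpos (sq_nonneg (c i1)) (not_lt.mp hcon)
      linarith
    exact_mod_cast this
  have hi2' : b (v i2) (v i2) < 0 := by
    have : (b (v i2) (v i2) : ℝ) < 0 := by
      by_contra hcon
      have := mul_nonneg (sq_nonneg (c i2)) (not_lt.mp hcon)
      linarith
    exact_mod_cast this
  have hi12 : i1 ≠ i2 := by
    rintro rfl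
    exact absurd hi1' (not_lt.mpr hi2'.le)
  -- five indices
  obtain ⟨J', hJ'1, hJ'2, hJ'3⟩ : ∃ J' : Finset (Fin n), {i1, i2} ⊆ J' ∧ J' ⊆ J ∧ J'.card = 5 := by
    apply Finset.exists_subsuperset_card_eq
    · intro i hi
      rw [hJ, Finset.mem_filter]
      refine ⟨Finset.mem_univ _, ?_⟩
      rcases Finset.mem_insert.mp hi with rfl | hi
      · exact hi1'.ne'
      · rw [Finset.mem_singleton.mp hi]; exact hi2'.ne
    · rw [Finset.card_pair hi12]; norm_num
    · exact hJ5
  let f : Fin 5 ≃ J' := (finCongr hJ'3.symm).trans J'.equivFin.symm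
  obtain ⟨z, hz0, hz⟩ := meyer5 (fun k => b (v (f k).1) (v (f k).1))
    (fun k => by
      have := hJ'2 (f k).2
      rw [hJ, Finset.mem_filter] at this
      exact this.2)
    ⟨f.symm ⟨i1, hJ'1 (by simp)⟩, by simpa using hi1'⟩
    ⟨f.symm ⟨i2, hJ'1 (by simp)⟩, by simpa using hi2'⟩
  obtain ⟨k0, hk0⟩ : ∃ k, z k ≠ 0 := by
    by_contra hcon
    push Not at hcon
    exact hz0 (funext hcon)
  let y1 : σ → ℚ := ∑ k, z k • (v (f k).1 : σ → ℚ)
  have hy1T : b p y1 = 0 := by
    rw [← hT]
    exact Submodule.sum_mem _ (fun k _ => T.smul_mem _ (v (f k).1).2)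
  have hfk : ∀ k l, k ≠ l → b (v (f k).1) (v (f l).1) = 0 := by
    intro k l hkl
    apply hvo
    intro h
    apply hkl
    exact f.injective (Subtype.ext h)
  have hy1v : ∀ k, b y1 (v (f k).1) = z k * b (v (f k).1) (v (f k).1) := by
    intro k
    rw [map_sum, LinearMap.sum_apply, Finset.sum_eq_single k]
    · rw [map_smul, LinearMap.smul_apply, smul_eq_mul]
    · intro l _ hl
      rw [map_smul, LinearMap.smul_apply, hfk l k hl, smul_zero]
    · simp
  have hy1y1 : b y1 y1 = 0 := by
    have h1 : b y1 y1 = ∑ k, z k • b y1 (v (f k).1) := by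
      change b y1 (∑ k, z k • (v (f k).1 : σ → ℚ)) = _
      rw [map_sum]
      simp only [map_smul]
    rw [h1, ← hz]
    apply Finset.sum_congr rfl
    intro k _
    rw [hy1v, smul_eq_mul]
    ring
  have hBk0 : b (v (f k0).1) (v (f k0).1) ≠ 0 := by
    have := hJ'2 (f k0).2
    rw [hJ, Finset.mem_filter] at this
    exact this.2
  by_cases hcase : bR (cst y1) x = 0
  · -- reflection
    obtain ⟨u, huT, hu1, hu2⟩ : ∃ u : σ → ℚ, b p u = 0 ∧ b y1 u ≠ 0 ∧ bR (cst u) x ≠ 0 := by
      have h0 : b y1 (v (f k0).1) ≠ 0 := by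
        rw [hy1v]; exact mul_ne_zero hk0 hBk0
      have h0T : b p (v (f k0).1) = 0 := (hT _).mp (v (f k0).1).2
      have h1 : bR (cst (v i0 : σ → ℚ)) x ≠ 0 := by rw [hval]; exact hi0
      have h1T : b p (v i0) = 0 := (hT _).mp (v i0).2
      by_cases h2 : bR (cst (v (f k0).1 : σ → ℚ)) x = 0
      · by_cases h3 : b y1 (v i0) = 0
        · refine ⟨(v (f k0).1 : σ → ℚ) + v i0, ?_, ?_, ?_⟩
          · rw [map_add, h0T, h1T, add_zero]
          · rw [map_add, h3, add_zero]; exact h0
          · rw [map_add, map_add, LinearMap.add_apply, h2, zero_add]; exact h1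
        · exact ⟨v i0, h1T, h3, h1⟩
      · exact ⟨v (f k0).1, h0T, h0, h2⟩
    refine ⟨b u u • y1 - (2 * b y1 u) • u, ?_, ?_, ?_⟩
    · change b p _ = 0
      rw [map_sub, map_smul, map_smul, hy1T, huT, smul_zero, smul_zero, sub_zero]
    · change b _ _ = 0
      simp only [map_sub, map_smul, LinearMap.sub_apply, LinearMap.smul_apply, smul_eq_mul, hy1y1,
        hsym u y1]
      ring
    · change bR (cst (b u u • y1 - (2 * b y1 u) • u)) x ≠ 0
      have h1 : cst (b u u • y1 - (2 * b y1 u) • u) =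
          (b u u : ℝ) • cst y1 - ((2 * b y1 u : ℚ) : ℝ) • cst u := by
        funext k
        simp [cst_apply]
      rw [h1, map_sub, LinearMap.sub_apply, map_smul, LinearMap.smul_apply, hcase, smul_zero,
        zero_sub, map_smul, LinearMap.smul_apply, smul_eq_mul]
      refine neg_ne_zero.mpr (mul_ne_zero ?_ hu2)
      have : (2 * b y1 u : ℚ) ≠ 0 := mul_ne_zero two_ne_zero hu1
      exact_mod_cast this
  · exact ⟨y1, hy1T, hy1y1, hcase⟩

end Pool.Agent.Work.MY
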