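import Mathlib
import Pool.Agent.Work.MP_b62148_ag.Meyer.Defs

/-!
Cancellation for totally isotropic subspaces of half the dimension, and the proof that a sum of
classes which is a consequence of the Witt relations has such a subspace.
-/

set_option autoImplicit false

namespace Pool.Agent.Work.MY

open Module

section basic

variable {ι κ : Type} [Fintype ι] [Fintype κ]

/-- the bilinear form of the diagonal form -/
noncomputable def bd (c : ι → ℚ) : LinearMap.BilinForm ℚ (ι → ℚ) :=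
  LinearMap.mk₂ ℚ (fun x y => ∑ i, c i * x i * y i)
    (fun x x' y => by simp only [Pi.add_apply, ← Finset.sum_add_distrib]
                      exact Finset.sum_congr rfl fun i _ => by ring)
    (fun r x y => by simp only [Pi.smul_apply, smul_eq_mul, Finset.mul_sum]
                     exact Finset.sum_congr rfl fun i _ => by ring)
    (fun x y y' => by simp only [Pi.add_apply, ← Finset.sum_add_distrib]
                      exact Finset.sum_congr rfl fun i _ => by ring)
    (fun r x y => by simp only [Pi.smul_apply, smul_eq_mul, Finset.mul_sum]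
                     exact Finset.sum_congr rfl fun i _ => by ring)

theorem bd_apply (c : ι → ℚ) (x y : ι → ℚ) : bd c x y = ∑ i, c i * x i * y i := rfl

theorem bd_self (c : ι → ℚ) (x : ι → ℚ) : bd c x x = ∑ i, c i * x i ^ 2 := by
  rw [bd_apply]
  exact Finset.sum_congr rfl fun i _ => by ring

theorem bd_symm (c : ι → ℚ) (x y : ι → ℚ) : bd c x y = bd c y x := by
  rw [bd_apply, bd_apply]
  exact Finset.sum_congr rfl fun i _ => by ring

theorem bd_refl (c : ι → ℚ) : (bd c).IsRefl := fun x y h => by rw [bd_symm]; exact h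

theorem bd_nondeg (c : ι → ℚ) (hc : ∀ i, c i ≠ 0) : (bd c).Nondegenerate := by
  classical
  refine (LinearMap.IsRefl.nondegenerate_iff_separatingLeft (bd_refl c)).2 ?_
  intro x hx
  funext i
  have h := hx (Pi.single i 1)
  rw [bd_apply, Finset.sum_eq_single i] at h
  · simpa [hc i] using h
  · intro j _ hj
    simp [Pi.single_eq_of_ne hj]
  · intro h'
    exact absurd (Finset.mem_univ i) h'

theorem bd_eq_zero {c : ι → ℚ} {M : Submodule ℚ (ι → ℚ)}
    (hM : ∀ x ∈ M, ∑ i, c i * x i ^ 2 = 0) {x y : ι → ℚ} (hx : x ∈ M) (hy : y ∈ M) :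
    bd c x y = 0 := by
  have h1 := hM x hx
  have h2 := hM y hy
  have h3 := hM (x + y) (M.add_mem hx hy)
  rw [← bd_self] at h1 h2 h3
  simp only [map_add, LinearMap.add_apply] at h3
  rw [h1, h2, bd_symm c y x] at h3
  linarith

theorem two_mul_le {c : ι → ℚ} (hc : ∀ i, c i ≠ 0) {M : Submodule ℚ (ι → ℚ)}
    (hM : ∀ x ∈ M, ∑ i, c i * x i ^ 2 = 0) : 2 * finrank ℚ M ≤ Fintype.card ι := by
  have h1 : M ≤ (bd c).orthogonal M := by
    intro x hx y hy
    exact bd_eq_zero hM hy hx
  have h2 := LinearMap.BilinForm.finrank_orthogonal (bd_nondeg c hc) M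
  have h3 := Submodule.finrank_mono h1
  have h4 : finrank ℚ (ι → ℚ) = Fintype.card ι := finrank_fintype_fun_eq_card ℚ
  have h5 := Submodule.finrank_le M
  omega

theorem orth_eq {c : ι → ℚ} (hc : ∀ i, c i ≠ 0) {M : Submodule ℚ (ι → ℚ)}
    (hM : ∀ x ∈ M, ∑ i, c i * x i ^ 2 = 0) (h : 2 * finrank ℚ M = Fintype.card ι) :
    (bd c).orthogonal M = M := by
  have h1 : M ≤ (bd c).orthogonal M := by
    intro x hx y hy
    exact bd_eq_zero hM hy hx
  have h2 := LinearMap.BilinForm.finrank_orthogonal (bd_nondeg c hc) M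
  have h4 : finrank ℚ (ι → ℚ) = Fintype.card ι := finrank_fintype_fun_eq_card ℚ
  have h5 := Submodule.finrank_le M
  refine (Submodule.eq_of_le_of_finrank_eq h1 ?_).symm
  omega

/-- a totally isotropic subspace given by an injective linear map -/
theorem neut_of_inj {W : Type*} [AddCommGroup W] [Module ℚ W] (c : ι → ℚ) (f : W →ₗ[ℚ] (ι → ℚ))
    (hf : Function.Injective f) (hiso : ∀ x, ∑ i, c i * f x i ^ 2 = 0)
    (hdim : 2 * finrank ℚ W = Fintype.card ι) : Neut c := by
  refine ⟨LinearMap.range f, ?_, ?_⟩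
  · rintro _ ⟨x, rfl⟩
    exact hiso x
  · rw [LinearMap.finrank_range_of_inj hf, hdim]

theorem Neut.reindex {c : ι → ℚ} (h : Neut c) (e : κ ≃ ι) {d : κ → ℚ}
    (hd : ∀ k, d k = c (e k)) : Neut d := by
  obtain ⟨M, hM, hdim⟩ := h
  refine neut_of_inj d ((LinearMap.funLeft ℚ ℚ e).comp M.subtype) ?_ ?_ ?_
  · exact (LinearMap.funLeft_injective_of_surjective ℚ ℚ e e.surjective).comp
      (Submodule.injective_subtype M)
  · intro x
    have := hM x.1 x.2
    rw [← this, ← Equiv.sum_comp e]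
    refine Finset.sum_congr rfl fun k _ => ?_
    simp [LinearMap.funLeft_apply, hd]
  · rw [hdim, Fintype.card_congr e]

theorem Neut.smul {c : ι → ℚ} (h : Neut c) (r : ℚ) {d : ι → ℚ} (hd : ∀ k, d k = r * c k) :
    Neut d := by
  obtain ⟨M, hM, hdim⟩ := h
  refine ⟨M, fun x hx => ?_, hdim⟩
  have := hM x hx
  calc ∑ i, d i * x i ^ 2 = r * ∑ i, c i * x i ^ 2 := by
        rw [Finset.mul_sum]
        exact Finset.sum_congr rfl fun i _ => by rw [hd]; ring
    _ = 0 := by rw [this, mul_zero]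

/-- join of two linear maps into functions on a sum type -/
def jn {W : Type*} [AddCommGroup W] [Module ℚ W] (f : W →ₗ[ℚ] (ι → ℚ)) (g : W →ₗ[ℚ] (κ → ℚ)) :
    W →ₗ[ℚ] (ι ⊕ κ → ℚ) where
  toFun x := Sum.elim (f x) (g x)
  map_add' x y := by
    funext i
    rcases i with i | i <;> simp
  map_smul' r x := by
    funext i
    rcases i with i | i <;> simp

omit [Fintype ι] [Fintype κ] in
theorem jn_inl {W : Type*} [AddCommGroup W] [Module ℚ W] (f : W →ₗ[ℚ] (ι → ℚ))
    (g : W →ₗ[ℚ] (κ → ℚ)) (x : W) (i : ι) : jn f g x (Sum.inl i) = f x i := rfl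

omit [Fintype ι] [Fintype κ] in
theorem jn_inr {W : Type*} [AddCommGroup W] [Module ℚ W] (f : W →ₗ[ℚ] (ι → ℚ))
    (g : W →ₗ[ℚ] (κ → ℚ)) (x : W) (i : κ) : jn f g x (Sum.inr i) = g x i := rfl

theorem Neut.sum {a : ι → ℚ} {b : κ → ℚ} (ha : Neut a) (hb : Neut b) : Neut (Sum.elim a b) := by
  obtain ⟨M, hM, hM'⟩ := ha
  obtain ⟨N, hN, hN'⟩ := hb
  refine neut_of_inj (W := M × N) _
    (jn (M.subtype.comp (LinearMap.fst ℚ M N)) (N.subtype.comp (LinearMap.snd ℚ M N))) ?_ ?_ ?_
  · intro x y h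
    refine Prod.ext (Subtype.ext ?_) (Subtype.ext ?_)
    · funext i
      exact congrFun h (Sum.inl i)
    · funext i
      exact congrFun h (Sum.inr i)
  · intro x
    rw [Fintype.sum_sum_type]
    simp only [Sum.elim_inl, Sum.elim_inr, jn_inl, jn_inr]
    have h1 := hM x.1.1 x.1.2
    have h2 := hN x.2.1 x.2.2
    simp only [LinearMap.coe_comp, Function.comp_apply, LinearMap.fst_apply, LinearMap.snd_apply,
      Submodule.coe_subtype]
    rw [h1, h2, add_zero]
  · rw [Module.finrank_prod, Fintype.card_sum]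
    omega

theorem neut_diag (a : ι → ℚ) : Neut (Sum.elim a fun i => -a i) := by
  refine neut_of_inj (W := ι → ℚ) _ (jn LinearMap.id LinearMap.id) ?_ ?_ ?_
  · intro x y h
    funext i
    exact congrFun h (Sum.inl i)
  · intro x
    rw [Fintype.sum_sum_type]
    simp only [Sum.elim_inl, Sum.elim_inr, jn_inl, jn_inr, LinearMap.id_coe, id]
    rw [← Finset.sum_add_distrib]
    exact Finset.sum_eq_zero fun i _ => by ring
  · rw [finrank_fintype_fun_eq_card, Fintype.card_sum]
    omega

/-- cancellation -/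
theorem Neut.cancel {a : ι → ℚ} {b : κ → ℚ} (ha : ∀ i, a i ≠ 0) (hb : ∀ i, b i ≠ 0)
    (h : Neut (Sum.elim a b)) (hN : Neut b) : Neut a := by
  obtain ⟨M, hM, hMd⟩ := h
  obtain ⟨N, hN, hNd⟩ := hN
  have hc : ∀ i, Sum.elim a b i ≠ 0 := by
    rintro (i | i)
    · exact ha i
    · exact hb i
  have hMo := orth_eq hc hM hMd
  have hNo := orth_eq hb hN hNd
  let inr' : (κ → ℚ) →ₗ[ℚ] (ι ⊕ κ → ℚ) := jn 0 LinearMap.id
  let r : (ι ⊕ κ → ℚ) →ₗ[ℚ] (ι → ℚ) := LinearMap.funLeft ℚ ℚ Sum.inl
  have hr : ∀ v i, r v i = v (Sum.inl i) := fun v i => rfl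
  have hinr : Function.Injective inr' := by
    intro x y h
    funext i
    exact congrFun h (Sum.inr i)
  have hinl0 : ∀ y i, inr' y (Sum.inl i) = 0 := fun y i => rfl
  have hinr0 : ∀ y i, inr' y (Sum.inr i) = y i := fun y i => rfl
  set N0 : Submodule ℚ (ι ⊕ κ → ℚ) := N.map inr' with hN0
  have hN0d : finrank ℚ N0 = finrank ℚ N := (Submodule.equivMapOfInjective inr' hinr N).finrank_eq.symm
  set W := (bd (Sum.elim a b)).orthogonal (M ⊔ N0) with hW
  have hWM : W ≤ M := by
    rw [← hMo]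
    exact LinearMap.BilinForm.orthogonal_le le_sup_left
  have hWN : ∀ v ∈ W, (fun i => v (Sum.inr i)) ∈ N := by
    intro v hv
    rw [← hNo]
    intro y hy
    have h1 := hv (inr' y) (Submodule.mem_sup_right (Submodule.mem_map_of_mem hy))
    change bd _ _ _ = 0 at h1
    change bd _ _ _ = 0
    rw [bd_apply, Fintype.sum_sum_type] at h1
    simp only [Sum.elim_inl, Sum.elim_inr, hinl0, hinr0, mul_zero, zero_mul,
      Finset.sum_const_zero, zero_add] at h1
    rw [bd_apply]
    exact h1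
  have hcard : finrank ℚ (ι ⊕ κ → ℚ) = Fintype.card ι + Fintype.card κ := by
    rw [finrank_fintype_fun_eq_card, Fintype.card_sum]
  rw [Fintype.card_sum] at hMd
  have hWd := LinearMap.BilinForm.finrank_orthogonal (bd_nondeg _ hc) (M ⊔ N0)
  rw [← hW, hcard] at hWd
  have hsup := Submodule.finrank_sup_add_finrank_inf_eq M N0
  set g := r.domRestrict W with hg
  have hk := LinearMap.finrank_range_add_finrank_ker g
  have hker : finrank ℚ (LinearMap.ker g) ≤ finrank ℚ (M ⊓ N0 : Submodule ℚ (ι ⊕ κ → ℚ)) := by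
    have h1 : (LinearMap.ker g).map W.subtype ≤ M ⊓ N0 := by
      rintro _ ⟨v, hv, rfl⟩
      refine ⟨hWM v.2, ?_⟩
      refine ⟨fun i => v.1 (Sum.inr i), hWN v.1 v.2, ?_⟩
      funext i
      rcases i with i | i
      · have : g v i = 0 := by
          rw [LinearMap.mem_ker.1 hv]
          rfl
        exact this.symm
      · rfl
    have h2 := Submodule.finrank_mono h1
    rwa [Submodule.finrank_map_subtype_eq] at h2
  have hiso : ∀ x ∈ LinearMap.range g, ∑ i, a i * x i ^ 2 = 0 := by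
    rintro _ ⟨v, rfl⟩
    have h1 := hM v.1 (hWM v.2)
    have h2 := hN _ (hWN v.1 v.2)
    rw [Fintype.sum_sum_type] at h1
    simp only [Sum.elim_inl, Sum.elim_inr] at h1 h2
    rw [h2, add_zero] at h1
    exact h1
  have hup := two_mul_le ha hiso
  refine ⟨LinearMap.range g, hiso, ?_⟩
  have h5 := Submodule.finrank_le (M ⊔ N0)
  omega

end basic

/-- `x` is the difference of two families of classes that are Witt equivalent -/
def WE (x : FreeAbelianGroup ℤ) : Prop :=
  ∃ (ι κ : Type) (_ : Fintype ι) (_ : Fintype κ) (a : ι → ℤ) (b : κ → ℤ),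
    (∀ i, a i ≠ 0) ∧ (∀ i, b i ≠ 0) ∧ x = ∑ i, w (a i) - ∑ i, w (b i) ∧
      Neut (Sum.elim (fun i => (a i : ℚ)) (fun i => -(b i : ℚ)))

theorem WE.neg {x : FreeAbelianGroup ℤ} (h : WE x) : WE (-x) := by
  obtain ⟨ι, κ, _, _, a, b, ha, hb, hx, hn⟩ := h
  refine ⟨κ, ι, inferInstance, inferInstance, b, a, hb, ha, by rw [hx]; abel, ?_⟩
  refine ((hn.reindex (Equiv.sumComm κ ι) (d := Sum.elim (fun i => -(b i : ℚ)) (fun i => (a i : ℚ)))
    ?_).smul (-1) ?_)
  · rintro (i | i) <;> rfl
  · rintro (i | i) <;> simp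

theorem WE.add {x y : FreeAbelianGroup ℤ} (hx : WE x) (hy : WE y) : WE (x + y) := by
  obtain ⟨ι, κ, _, _, a, b, ha, hb, hx, hn⟩ := hx
  obtain ⟨ι', κ', _, _, a', b', ha', hb', hy, hn'⟩ := hy
  refine ⟨ι ⊕ ι', κ ⊕ κ', inferInstance, inferInstance, Sum.elim a a', Sum.elim b b', ?_, ?_, ?_, ?_⟩
  · rintro (i | i)
    · exact ha i
    · exact ha' i
  · rintro (i | i)
    · exact hb i
    · exact hb' i
  · rw [Fintype.sum_sum_type, Fintype.sum_sum_type]
    simp only [Sum.elim_inl, Sum.elim_inr]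
    rw [hx, hy]
    abel
  · refine (hn.sum hn').reindex (Equiv.sumSumSumComm ι ι' κ κ') ?_
    rintro ((i | i) | (i | i)) <;> rfl

theorem WE.zero : WE 0 := by
  refine ⟨Empty, Empty, inferInstance, inferInstance, Empty.elim, Empty.elim, fun i => i.elim,
    fun i => i.elim, by simp, ?_⟩
  exact ⟨⊥, fun x hx => by simp, by simp⟩

theorem neut_hyp (a : ℚ) : Neut (Sum.elim (fun _ : Unit => a) (fun _ : Unit => -a)) :=
  neut_diag fun _ : Unit => a

theorem neut_sq (a b : ℚ) :
    Neut (Sum.elim (fun _ : Unit => a * b ^ 2) (fun _ : Unit => -a)) := by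
  refine neut_of_inj (W := ℚ) _
    (jn (LinearMap.pi fun _ => LinearMap.id) (LinearMap.pi fun _ => b • LinearMap.id)) ?_ ?_ ?_
  · intro x y h
    exact congrFun h (Sum.inl ())
  · intro x
    rw [Fintype.sum_sum_type]
    simp only [Sum.elim_inl, Sum.elim_inr, jn_inl, jn_inr, LinearMap.pi_apply, LinearMap.id_coe, id,
      LinearMap.smul_apply, smul_eq_mul, Finset.univ_unique, Finset.sum_const, Finset.card_singleton,
      one_smul]
    ring
  · simp

theorem neut_add (a b : ℚ) :
    Neut (Sum.elim (Sum.elim (fun _ : Unit => a) (fun _ : Unit => b))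
      (Sum.elim (fun _ : Unit => -(a + b)) (fun _ : Unit => -(a * b * (a + b))))) := by
  refine neut_of_inj (W := ℚ × ℚ) _
    (jn (jn (LinearMap.pi fun _ => LinearMap.fst ℚ ℚ ℚ - b • LinearMap.snd ℚ ℚ ℚ)
      (LinearMap.pi fun _ => LinearMap.fst ℚ ℚ ℚ + a • LinearMap.snd ℚ ℚ ℚ))
      (jn (LinearMap.pi fun _ => LinearMap.fst ℚ ℚ ℚ) (LinearMap.pi fun _ => LinearMap.snd ℚ ℚ ℚ)))
    ?_ ?_ ?_
  · intro x y h
    exact Prod.ext (congrFun h (Sum.inr (Sum.inl ()))) (congrFun h (Sum.inr (Sum.inr ())))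
  · intro x
    rw [Fintype.sum_sum_type, Fintype.sum_sum_type, Fintype.sum_sum_type]
    simp only [Sum.elim_inl, Sum.elim_inr, jn_inl, jn_inr, LinearMap.pi_apply,
      LinearMap.smul_apply, smul_eq_mul, Finset.univ_unique, Finset.sum_const, Finset.card_singleton,
      one_smul, LinearMap.sub_apply, LinearMap.add_apply, LinearMap.fst_apply, LinearMap.snd_apply]
    ring
  · simp

theorem WE.of_rel {x : FreeAbelianGroup ℤ} (h : IsRel x) : WE x := by
  cases h with
  | sq a b ha hb =>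
    refine ⟨Unit, Unit, inferInstance, inferInstance, fun _ => a * b ^ 2, fun _ => a, fun _ => ?_,
      fun _ => ha, by simp, ?_⟩
    · exact mul_ne_zero ha (pow_ne_zero 2 hb)
    · have := neut_sq (a : ℚ) (b : ℚ)
      push_cast
      exact this
  | hyp a ha =>
    refine ⟨Unit ⊕ Unit, Empty, inferInstance, inferInstance,
      Sum.elim (fun _ => a) (fun _ => -a), Empty.elim, ?_, fun i => i.elim, ?_, ?_⟩
    · rintro (i | i)
      · exact ha
      · exact neg_ne_zero.2 ha
    · simp [Fintype.sum_sum_type]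
    · refine (neut_hyp (a : ℚ)).reindex (Equiv.sumEmpty (Unit ⊕ Unit) Empty) ?_
      rintro ((i | i) | i)
      · rfl
      · simp
      · exact i.elim
  | add a b ha hb hab =>
    refine ⟨Unit ⊕ Unit, Unit ⊕ Unit, inferInstance, inferInstance,
      Sum.elim (fun _ => a) (fun _ => b),
      Sum.elim (fun _ => a + b) (fun _ => a * b * (a + b)), ?_, ?_, ?_, ?_⟩
    · rintro (i | i)
      · exact ha
      · exact hb
    · rintro (i | i)
      · exact hab
      · exact mul_ne_zero (mul_ne_zero ha hb) hab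
    · simp only [Fintype.sum_sum_type, Sum.elim_inl, Sum.elim_inr, Finset.univ_unique,
        Finset.sum_const, Finset.card_singleton, one_smul]
      abel
    · refine (neut_add (a : ℚ) (b : ℚ)).reindex (Equiv.refl _) ?_
      rintro ((i | i) | (i | i)) <;> simp

theorem WE.of_mem {x : FreeAbelianGroup ℤ} (h : x ∈ Rel) : WE x := by
  induction h using AddSubgroup.closure_induction with
  | mem x hx => exact WE.of_rel hx
  | zero => exact WE.zero
  | add x y _ _ hx hy => exact hx.add hy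
  | neg x _ hx => exact hx.neg

/-- families with the same sum of classes are reindexings of each other -/
theorem exists_equiv {ι κ : Type} [Fintype ι] [Fintype κ] (a : ι → ℤ) (b : κ → ℤ)
    (h : ∑ i, w (a i) = ∑ i, w (b i)) : ∃ e : ι ≃ κ, ∀ i, a i = b (e i) := by
  classical
  have hc : ∀ z : ℤ, Fintype.card {i // a i = z} = Fintype.card {i // b i = z} := by
    intro z
    have h1 := congrArg (FreeAbelianGroup.lift fun y : ℤ => if y = z then (1 : ℤ) else 0) h
    simp only [map_sum, w, FreeAbelianGroup.lift_apply_of] at h1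
    rw [Fintype.card_subtype, Fintype.card_subtype, Finset.card_filter, Finset.card_filter]
    exact_mod_cast h1
  let e : ι ≃ κ := (Equiv.sigmaFiberEquiv a).symm.trans
    ((Equiv.sigmaCongrRight fun z => Fintype.equivOfCardEq (hc z)).trans (Equiv.sigmaFiberEquiv b))
  refine ⟨e, fun i => ?_⟩
  exact ((Fintype.equivOfCardEq (hc (a i))) ⟨i, rfl⟩).2.symm

theorem neut_of_mem_Rel {m : ℕ} (a : Fin m → ℤ) (ha : ∀ i, a i ≠ 0)
    (h : ∑ i, w (a i) ∈ Rel) : Neut fun i => (a i : ℚ) := by
  obtain ⟨ι, κ, _, _, a', b', ha', hb', hx, hn⟩ := WE.of_mem h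
  obtain ⟨e, he⟩ := exists_equiv (Sum.elim a b') a' (by
    rw [Fintype.sum_sum_type]
    simp only [Sum.elim_inl, Sum.elim_inr]
    rw [hx]
    abel)
  have h1 : Neut (Sum.elim (fun i => (a i : ℚ))
      (Sum.elim (fun i => (b' i : ℚ)) (fun i => -(b' i : ℚ)))) := by
    refine hn.reindex ((Equiv.sumAssoc (Fin m) κ κ).symm.trans (Equiv.sumCongr e (Equiv.refl κ))) ?_
    rintro (i | (i | i))
    · have := he (Sum.inl i)
      simp only [Sum.elim_inl] at this
      simp [this]
    · have := he (Sum.inr i)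
      simp only [Sum.elim_inr] at this
      simp [this]
    · simp
  refine Neut.cancel (fun i => Int.cast_ne_zero.2 (ha i)) ?_ h1 (neut_diag _)
  rintro (i | i)
  · exact Int.cast_ne_zero.2 (hb' i)
  · exact neg_ne_zero.2 (Int.cast_ne_zero.2 (hb' i))

end Pool.Agent.Work.MY
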