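import Mathlib
import Pool.Agent.Work.MP_b62148_ag.Meyer.Defs

/-!
Existence of a twisting form with prescribed residue invariants, by the theorem of Dirichlet on
primes in arithmetic progressions and quadratic reciprocity.
-/

namespace Pool.Agent.Work.MY

namespace TW

lemma gam_w (p : ℕ) (a : ℤ) : gam p (w a) = gam0 p a := by
  simp [gam, w]

lemma gam0_of_not_dvd {p : ℕ} {a : ℤ} (h : ¬ (p : ℤ) ∣ a) : gam0 p a = 0 := by
  unfold gam0
  rw [padicValInt.eq_zero_of_not_dvd h]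
  simp

lemma val_one {p : ℕ} [Fact p.Prime] {b : ℤ} (h : ¬ (p : ℤ) ∣ b) :
    padicValInt p (p * b) = 1 := by
  have hp : (p : ℤ) ≠ 0 := by exact_mod_cast (Fact.out : p.Prime).ne_zero
  have hb : b ≠ 0 := by rintro rfl; exact h (dvd_zero _)
  rw [padicValInt.mul hp hb, padicValInt.eq_zero_of_not_dvd h,
    padicValInt.self (Fact.out : p.Prime).one_lt]

lemma res_eq {p : ℕ} [Fact p.Prime] {b : ℤ} (h : ¬ (p : ℤ) ∣ b) :
    res p (p * b) = ((b : ℤ) : ZMod p) := by
  have hp : (p : ℤ) ≠ 0 := by exact_mod_cast (Fact.out : p.Prime).ne_zero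
  unfold res
  rw [val_one h, pow_one, Int.mul_ediv_cancel_left _ hp]

lemma gam0_mul_sq {p : ℕ} [Fact p.Prime] {b : ℤ} (h : ¬ (p : ℤ) ∣ b)
    (hs : IsSquare ((b : ℤ) : ZMod p)) :
    gam0 p (p * b) = (if p % 4 = 1 then 0 else 1) := by
  unfold gam0
  rw [val_one h, res_eq h]
  simp [hs]

lemma gam0_mul_nsq {p : ℕ} [Fact p.Prime] {b : ℤ} (h : ¬ (p : ℤ) ∣ b)
    (hs : ¬ IsSquare ((b : ℤ) : ZMod p)) :
    gam0 p (p * b) = (if p % 4 = 1 then 0 else 1) + 2 := by
  unfold gam0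
  rw [val_one h, res_eq h]
  simp [hs]

lemma mod_four {p : ℕ} [Fact p.Prime] (hp2 : p ≠ 2) : p % 4 = 1 ∨ p % 4 = 3 := by
  have h1 : p % 2 = 1 := (Nat.Prime.mod_two_eq_one_iff_ne_two Fact.out).2 hp2
  omega

lemma cast_ne {p : ℕ} {a : ℤ} (h : ¬ (p : ℤ) ∣ a) : (a : ZMod p) ≠ 0 := by
  intro h0
  exact h ((ZMod.intCast_zmod_eq_zero_iff_dvd a p).1 h0)

lemma not_dvd_mul {p : ℕ} [Fact p.Prime] {a b : ℤ} (ha : ¬ (p : ℤ) ∣ a) (hb : ¬ (p : ℤ) ∣ b) :
    ¬ (p : ℤ) ∣ a * b := by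
  intro h
  rcases (Nat.prime_iff_prime_int.1 (Fact.out : p.Prime)).dvd_or_dvd h with h | h
  · exact ha h
  · exact hb h

lemma val_at {p : ℕ} [Fact p.Prime] (hp2 : p ≠ 2) {ε f : ℤ} (hε : ¬ (p : ℤ) ∣ ε)
    (hf : ¬ (p : ℤ) ∣ f) (hfn : ¬ IsSquare ((f : ℤ) : ZMod p)) :
    gam0 p (p * ε) + gam0 p f + gam0 p (-(p * ε * f)) = 2 := by
  have hf' : legendreSym p f = -1 := (legendreSym.eq_neg_one_iff p).2 hfn
  have h3 : legendreSym p (-(ε * f)) = - (legendreSym p (-1) * legendreSym p ε) := by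
    rw [show -(ε * f) = (-1) * ε * f by ring, legendreSym.mul, legendreSym.mul, hf']; ring
  have hd : ¬ (p : ℤ) ∣ -(ε * f) := by
    rw [dvd_neg]; exact not_dvd_mul hε hf
  have he : -((p : ℤ) * ε * f) = p * (-(ε * f)) := by ring
  rw [he, gam0_of_not_dvd hf]
  have hm1 := legendreSym.at_neg_one hp2
  rcases mod_four hp2 with h4 | h4
  · rw [ZMod.χ₄_nat_one_mod_four h4] at hm1
    by_cases hs : IsSquare ((ε : ℤ) : ZMod p)
    · have hs1 := (legendreSym.eq_one_iff p (cast_ne hε)).2 hs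
      rw [hm1, hs1] at h3
      have hn : ¬ IsSquare (((-(ε * f) : ℤ)) : ZMod p) :=
        (legendreSym.eq_neg_one_iff p).1 (by rw [h3]; norm_num)
      rw [gam0_mul_sq hε hs, gam0_mul_nsq hd hn]
      simp [h4]
    · have hs1 := (legendreSym.eq_neg_one_iff p).2 hs
      rw [hm1, hs1] at h3
      have hn : IsSquare (((-(ε * f) : ℤ)) : ZMod p) :=
        (legendreSym.eq_one_iff p (cast_ne hd)).1 (by rw [h3]; norm_num)
      rw [gam0_mul_nsq hε hs, gam0_mul_sq hd hn]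
      simp [h4]
  · rw [ZMod.χ₄_nat_three_mod_four h4] at hm1
    by_cases hs : IsSquare ((ε : ℤ) : ZMod p)
    · have hs1 := (legendreSym.eq_one_iff p (cast_ne hε)).2 hs
      rw [hm1, hs1] at h3
      have hn : IsSquare (((-(ε * f) : ℤ)) : ZMod p) :=
        (legendreSym.eq_one_iff p (cast_ne hd)).1 (by rw [h3]; norm_num)
      rw [gam0_mul_sq hε hs, gam0_mul_sq hd hn]
      rw [if_neg (by omega)]
      decide
    · have hs1 := (legendreSym.eq_neg_one_iff p).2 hs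
      rw [hm1, hs1] at h3
      have hn : ¬ IsSquare (((-(ε * f) : ℤ)) : ZMod p) :=
        (legendreSym.eq_neg_one_iff p).1 (by rw [h3]; norm_num)
      rw [gam0_mul_nsq hε hs, gam0_mul_nsq hd hn]
      rw [if_neg (by omega)]
      decide

/-- a residue whose product with `κ` is not a square -/
lemma exists_n (p : ℕ) (hp : p.Prime) (hp2 : p ≠ 2) (κ : ℤ) (hκ : κ = 1 ∨ κ = -1) :
    ∃ n : ℕ, ¬ IsSquare (((κ * (n : ℤ) : ℤ)) : ZMod p) := by
  have : Fact p.Prime := ⟨hp⟩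
  obtain ⟨a, ha⟩ := FiniteField.exists_nonsquare (F := ZMod p) (by
    rw [ZMod.ringChar_zmod_n]; exact hp2)
  refine ⟨((κ : ZMod p) * a).val, ?_⟩
  have h1 : ((((κ : ZMod p) * a).val : ℕ) : ZMod p) = (κ : ZMod p) * a := ZMod.natCast_zmod_val _
  have h2 : ((κ * ((((κ : ZMod p) * a).val : ℕ) : ℤ) : ℤ) : ZMod p) = a := by
    push_cast
    rw [h1]
    rcases hκ with rfl | rfl <;> simp
  rw [h2]
  exact ha

/-- the auxiliary prime -/
lemma exists_l (S : Finset ℕ) (hS : ∀ p ∈ S, p.Prime ∧ p ≠ 2) (κ : ℤ) (hκ : κ = 1 ∨ κ = -1) :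
    ∃ (l : ℕ) (c : ℤ), l.Prime ∧ l % 4 = 1 ∧ (c = 1 ∨ c = 2) ∧ (∀ p ∈ S, p < l) ∧
      (∀ p ∈ S, ¬ IsSquare (((κ * (l : ℤ) : ℤ)) : ZMod p)) ∧
      IsSquare (((κ * c * ∏ p ∈ S, (p : ℤ) : ℤ)) : ZMod l) := by
  classical
  have hex : ∀ p : ℕ, ∃ n : ℕ, p ∈ S → ¬ IsSquare (((κ * (n : ℤ) : ℤ)) : ZMod p) := by
    intro p
    by_cases hp : p ∈ S
    · obtain ⟨n, hn⟩ := exists_n p (hS p hp).1 (hS p hp).2 κ hκ
      exact ⟨n, fun _ => hn⟩
    · exact ⟨0, fun h => absurd h hp⟩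
  choose n hn using hex
  -- the sign
  set τ : ℤ := ∏ p ∈ S.attach, (haveI : Fact (p : ℕ).Prime := ⟨(hS p p.2).1⟩;
    legendreSym (p : ℕ) (n p)) with hτdef
  have hτ : τ = 1 ∨ τ = -1 := by
    have : ∀ p ∈ S.attach, (haveI : Fact (p : ℕ).Prime := ⟨(hS p p.2).1⟩;
      legendreSym (p : ℕ) (n p)) = 1 ∨ (haveI : Fact (p : ℕ).Prime := ⟨(hS p p.2).1⟩;
      legendreSym (p : ℕ) (n p)) = -1 := by
      intro p _
      have : Fact (p : ℕ).Prime := ⟨(hS p p.2).1⟩
      apply legendreSym.eq_one_or_neg_one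
      intro h0
      apply hn p p.2
      rw [Int.cast_mul, h0, mul_zero]
      exact IsSquare.zero
    rw [hτdef]
    exact Finset.prod_induction _ (fun x => x = 1 ∨ x = -1)
      (by rintro a b (rfl | rfl) (rfl | rfl) <;> simp) (Or.inl rfl) this
  -- the residue
  let r : ℕ := if τ = 1 then 1 else 5
  have h8 : (8 : ℕ) ∉ S := fun h => by
    have := (hS 8 h).1
    revert this; norm_num
  let s : ℕ → ℕ := fun p => p
  let a : ℕ → ℕ := fun p => if p = 8 then r else n p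
  have hcop8 : ∀ p ∈ S, Nat.Coprime 8 p := by
    intro p hp
    rw [show (8 : ℕ) = 2 ^ 3 by norm_num]
    apply Nat.Coprime.pow_left
    rw [Nat.coprime_primes Nat.prime_two (hS p hp).1]
    exact fun h => (hS p hp).2 h.symm
  obtain ⟨k, hk⟩ := Nat.chineseRemainderOfFinset a s (insert 8 S)
    (by
      intro i hi
      rw [Finset.mem_insert] at hi
      rcases hi with rfl | hi
      · simp [s]
      · exact (hS i hi).1.ne_zero)
    (by
      intro i hi j hj hij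
      rw [Finset.mem_coe, Finset.mem_insert] at hi hj
      change Nat.Coprime i j
      rcases hi with rfl | hi
      · rcases hj with rfl | hj
        · exact absurd rfl hij
        · exact hcop8 j hj
      · rcases hj with rfl | hj
        · exact (hcop8 i hi).symm
        · exact (Nat.coprime_primes (hS i hi).1 (hS j hj).1).2 hij)
  have hk8 : k ≡ r [MOD 8] := by
    have := hk 8 (Finset.mem_insert_self _ _)
    simpa [a, s] using this
  have hkS : ∀ p ∈ S, k ≡ n p [MOD p] := by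
    intro p hp
    have := hk p (Finset.mem_insert_of_mem hp)
    have hp8 : p ≠ 8 := fun h => h8 (h ▸ hp)
    simpa [a, s, hp8] using this
  have hr : r = 1 ∨ r = 5 := by
    simp only [r]; split_ifs <;> simp
  -- coprimality
  have hcop : k.Coprime (8 * ∏ p ∈ S, p) := by
    apply Nat.Coprime.mul_right
    · rw [show (8 : ℕ) = 2 ^ 3 by norm_num]
      apply Nat.Coprime.pow_right
      rw [Nat.coprime_comm, Nat.Prime.coprime_iff_not_dvd Nat.prime_two]
      intro h2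
      have : k % 8 = r % 8 := hk8
      rcases hr with hr | hr <;> rw [hr] at this <;> omega
    · apply Nat.Coprime.prod_right
      intro p hp
      rw [Nat.coprime_comm, Nat.Prime.coprime_iff_not_dvd (hS p hp).1]
      intro hd
      apply hn p hp
      have h1 : (n p : ZMod p) = 0 := by
        rw [← (ZMod.natCast_eq_natCast_iff _ _ _).2 (hkS p hp)]
        exact (ZMod.natCast_eq_zero_iff _ _).2 hd
      rw [Int.cast_mul, Int.cast_natCast, h1, mul_zero]
      exact IsSquare.zero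
  have hq0 : (8 * ∏ p ∈ S, p) ≠ 0 := by
    apply mul_ne_zero (by norm_num)
    exact Finset.prod_ne_zero_iff.2 fun p hp => (hS p hp).1.ne_zero
  obtain ⟨l, hlgt, hlp, hlmod⟩ := Nat.forall_exists_prime_gt_and_modEq (8 * ∏ p ∈ S, p) hq0 hcop
  have : Fact l.Prime := ⟨hlp⟩
  have hl8 : l % 8 = r := by
    have h1 : l ≡ k [MOD 8] := hlmod.of_mul_right _
    have h2 : l % 8 = r % 8 := h1.trans hk8
    rcases hr with hr | hr <;> rw [hr] at h2 ⊢ <;> omega
  have hl4 : l % 4 = 1 := by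
    rcases hr with hr | hr <;> omega
  have hlt : ∀ p ∈ S, p < l := by
    intro p hp
    have h1 : p ≤ ∏ p ∈ S, p :=
      Nat.le_of_dvd (Nat.pos_of_ne_zero
        (Finset.prod_ne_zero_iff.2 fun p hp => (hS p hp).1.ne_zero)) (Finset.dvd_prod_of_mem _ hp)
    omega
  have hlS : ∀ p ∈ S, (l : ZMod p) = (n p : ZMod p) := by
    intro p hp
    have h1 : l ≡ k [MOD p] :=
      Nat.ModEq.of_dvd ((Finset.dvd_prod_of_mem (fun p => p) hp).trans (Dvd.intro_left 8 rfl)) hlmod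
    exact (ZMod.natCast_eq_natCast_iff _ _ _).2 (h1.trans (hkS p hp))
  have hl2 : l ≠ 2 := by rintro rfl; omega
  -- the symbol of the product
  have hleg : legendreSym l (∏ p ∈ S, (p : ℤ)) = τ := by
    rw [← Finset.prod_attach, hτdef]
    have : legendreSym l (∏ p ∈ S.attach, ((p : ℕ) : ℤ)) =
        ∏ p ∈ S.attach, legendreSym l ((p : ℕ) : ℤ) :=
      map_prod (legendreSym.hom l) _ _
    rw [this]
    apply Finset.prod_congr rfl
    intro p _
    have : Fact (p : ℕ).Prime := ⟨(hS p p.2).1⟩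
    rw [← legendreSym.quadratic_reciprocity_one_mod_four hl4 (hS p p.2).2]
    unfold legendreSym
    rw [Int.cast_natCast, Int.cast_natCast, hlS p p.2]
  refine ⟨l, if τ = 1 then 1 else 2, hlp, hl4, ?_, hlt, ?_, ?_⟩
  · split_ifs <;> simp
  · intro p hp
    have := hn p hp
    rw [Int.cast_mul, Int.cast_natCast] at this ⊢
    rw [hlS p hp]
    exact this
  · have hκl : legendreSym l κ = 1 := by
      rcases hκ with rfl | rfl
      · exact legendreSym.at_one l
      · rw [legendreSym.at_neg_one hl2, ZMod.χ₄_nat_one_mod_four hl4]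
    have h2l : legendreSym l (if τ = 1 then 1 else 2) = τ := by
      rcases hτ with h | h
      · rw [if_pos h, legendreSym.at_one, h]
      · have hr5 : r = 5 := by simp [r, h]
        rw [if_neg (by rw [h]; norm_num), legendreSym.at_two hl2, h,
          ZMod.χ₈_nat_eq_if_mod_eight]
        rw [hr5] at hl8
        rw [if_neg (by omega), if_neg (by omega)]
    have htot : legendreSym l (κ * (if τ = 1 then 1 else 2) * ∏ p ∈ S, (p : ℤ)) = 1 := by
      rw [legendreSym.mul, legendreSym.mul, hκl, h2l, hleg]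
      rcases hτ with h | h <;> rw [h] <;> norm_num
    have hne : ((κ * (if τ = 1 then 1 else 2) * ∏ p ∈ S, (p : ℤ) : ℤ) : ZMod l) ≠ 0 := by
      intro h0
      have := (legendreSym.eq_zero_iff l _).2 h0
      rw [htot] at this
      exact one_ne_zero this
    exact (legendreSym.eq_one_iff l hne).1 htot

end TW

open TW in
theorem exists_ef (S : Finset ℕ) (hS : ∀ p ∈ S, p.Prime ∧ p ≠ 2) (κ : ℤ) (hκ : κ = 1 ∨ κ = -1) :
    ∃ e f : ℤ, 0 < κ * e ∧ 0 < κ * f ∧ ∀ p : ℕ, p.Prime → p ≠ 2 →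
      gam p (w e + w f + w (-(e * f))) = if p ∈ S then 2 else 0 := by
  classical
  obtain ⟨l, c, hlp, hl4, hc, hlt, hnsq, hsq⟩ := exists_l S hS κ hκ
  have : Fact l.Prime := ⟨hlp⟩
  have hκ2 : κ * κ = 1 := by rcases hκ with rfl | rfl <;> norm_num
  have hc0 : 0 < c := by rcases hc with rfl | rfl <;> norm_num
  have hm0 : 0 < ∏ p ∈ S, (p : ℤ) :=
    Finset.prod_pos fun p hp => by exact_mod_cast (hS p hp).1.pos
  have hl0 : (0 : ℤ) < l := by exact_mod_cast hlp.pos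
  -- odd primes dividing `c` or `κ`
  have hndc : ∀ p : ℕ, p.Prime → p ≠ 2 → ¬ (p : ℤ) ∣ c := by
    intro p hp hp2 h
    rcases hc with rfl | rfl
    · have : (p : ℕ) ∣ 1 := by exact_mod_cast h
      exact hp.one_lt.ne' (Nat.dvd_one.1 this)
    · have : (p : ℕ) ∣ 2 := by exact_mod_cast h
      exact hp2 ((Nat.prime_dvd_prime_iff_eq hp Nat.prime_two).1 this)
  have hndκ : ∀ p : ℕ, p.Prime → ¬ (p : ℤ) ∣ κ := by
    intro p hp h
    have h1 : (p : ℤ) ∣ 1 := by rw [← hκ2]; exact Dvd.dvd.mul_right h κ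
    have : (p : ℕ) ∣ 1 := by exact_mod_cast h1
    exact hp.one_lt.ne' (Nat.dvd_one.1 this)
  have hndm : ∀ (p : ℕ) (T : Finset ℕ), p.Prime → T ⊆ S → p ∉ T →
      ¬ (p : ℤ) ∣ ∏ x ∈ T, (x : ℤ) := by
    intro p T hp hT hpT h
    rw [Prime.dvd_finsetProd_iff (Nat.prime_iff_prime_int.1 hp)] at h
    obtain ⟨x, hx, hd⟩ := h
    have : p ∣ x := by exact_mod_cast hd
    have := (Nat.prime_dvd_prime_iff_eq hp (hS x (hT hx)).1).1 this
    exact hpT (this ▸ hx)
  have hlS : l ∉ S := fun h => lt_irrefl _ (hlt l h)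
  have hl2 : l ≠ 2 := by rintro rfl; omega
  refine ⟨κ * c * ∏ p ∈ S, (p : ℤ), κ * l, ?_, ?_, ?_⟩
  · have : κ * (κ * c * ∏ p ∈ S, (p : ℤ)) = c * ∏ p ∈ S, (p : ℤ) := by
      rw [← mul_assoc, ← mul_assoc, hκ2, one_mul]
    rw [this]; positivity
  · rw [← mul_assoc, hκ2, one_mul]; exact hl0
  intro p hp hp2
  have : Fact p.Prime := ⟨hp⟩
  rw [map_add, map_add, gam_w, gam_w, gam_w]
  by_cases hpS : p ∈ S
  · rw [if_pos hpS]
    have hprod : ∏ x ∈ S, (x : ℤ) = p * ∏ x ∈ S.erase p, (x : ℤ) :=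
      (Finset.mul_prod_erase S (fun x => (x : ℤ)) hpS).symm
    have hpl : ¬ (p : ℤ) ∣ l := by
      intro h
      have : p ∣ l := by exact_mod_cast h
      have := (Nat.prime_dvd_prime_iff_eq hp hlp).1 this
      exact hlS (this ▸ hpS)
    have hε : ¬ (p : ℤ) ∣ κ * c * ∏ x ∈ S.erase p, (x : ℤ) :=
      not_dvd_mul (not_dvd_mul (hndκ p hp) (hndc p hp hp2))
        (hndm p _ hp (Finset.erase_subset _ _) (Finset.notMem_erase _ _))
    have hf : ¬ (p : ℤ) ∣ κ * l := not_dvd_mul (hndκ p hp) hpl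
    have h := val_at hp2 hε hf (hnsq p hpS)
    have he : κ * c * ∏ x ∈ S, (x : ℤ) = p * (κ * c * ∏ x ∈ S.erase p, (x : ℤ)) := by
      rw [hprod]; ring
    rw [he]
    exact h
  · rw [if_neg hpS]
    have hnde : ¬ (p : ℤ) ∣ κ * c * ∏ x ∈ S, (x : ℤ) :=
      not_dvd_mul (not_dvd_mul (hndκ p hp) (hndc p hp hp2)) (hndm p S hp (Finset.Subset.refl _) hpS)
    rw [gam0_of_not_dvd hnde]
    by_cases hpl : p = l
    · subst hpl
      have hm1sq : IsSquare (-1 : ZMod p) :=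
        ZMod.exists_sq_eq_neg_one_iff.2 (by omega)
      have hκsq : IsSquare ((κ : ℤ) : ZMod p) := by
        rcases hκ with rfl | rfl
        · exact ⟨1, by simp⟩
        · simpa using hm1sq
      have h1 : gam0 p (κ * p) = 0 := by
        rw [mul_comm, gam0_mul_sq (hndκ p hp) hκsq, if_pos hl4]
      have h2 : gam0 p (-(κ * c * (∏ x ∈ S, (x : ℤ)) * (κ * p))) = 0 := by
        have he : -(κ * c * (∏ x ∈ S, (x : ℤ)) * (κ * p)) =
            p * ((-1) * κ * (κ * c * ∏ x ∈ S, (x : ℤ))) := by ring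
        have hd : ¬ (p : ℤ) ∣ (-1) * κ * (κ * c * ∏ x ∈ S, (x : ℤ)) := by
          refine not_dvd_mul (not_dvd_mul ?_ (hndκ p hp)) hnde
          rw [dvd_neg]
          intro h
          have : (p : ℕ) ∣ 1 := by exact_mod_cast h
          exact hp.one_lt.ne' (Nat.dvd_one.1 this)
        have hs : IsSquare ((((-1) * κ * (κ * c * ∏ x ∈ S, (x : ℤ))) : ℤ) : ZMod p) := by
          rw [Int.cast_mul, Int.cast_mul, Int.cast_neg, Int.cast_one]
          exact (hm1sq.mul hκsq).mul hsq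
        rw [he, gam0_mul_sq hd hs, if_pos hl4]
      rw [h1, h2]
      simp
    · have hpl' : ¬ (p : ℤ) ∣ l := by
        intro h
        have : p ∣ l := by exact_mod_cast h
        exact hpl ((Nat.prime_dvd_prime_iff_eq hp hlp).1 this)
      have hf : ¬ (p : ℤ) ∣ κ * l := not_dvd_mul (hndκ p hp) hpl'
      have hef : ¬ (p : ℤ) ∣ -(κ * c * (∏ x ∈ S, (x : ℤ)) * (κ * l)) := by
        rw [dvd_neg]; exact not_dvd_mul hnde hf
      rw [gam0_of_not_dvd hf, gam0_of_not_dvd hef]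
      simp

end Pool.Agent.Work.MY
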