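import Mathlib
import Pool.Agent.Work.MP_b62148_ag.Meyer.Final
import Pool.Agent.Work.MP_b62148_ag.Meyer.Neut
import Pool.Agent.Work.MP_b62148_ag.Meyer.Twist

/-!
The theorem of Meyer for diagonal forms in five variables.
-/

namespace Pool.Agent.Work.MY

theorem meyer5 (a : Fin 5 → ℚ) (h0 : ∀ i, a i ≠ 0) (hpos : ∃ i, 0 < a i) (hneg : ∃ i, a i < 0) :
    ∃ x : Fin 5 → ℚ, x ≠ 0 ∧ ∑ i, a i * x i ^ 2 = 0 :=
  meyer5_of (fun a ha h => neut_of_mem_Rel a ha h) (fun S hS κ hκ => exists_ef S hS κ hκ) a h0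
    hpos hneg

end Pool.Agent.Work.MY
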