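import Mathlib
import Pool.Agent.Work.MP_b62148_ag.Meyer.Defs

/-!
Statements of the modules of the proof of the theorem of Meyer.
-/

namespace Pool.Agent.Work.MY

/-! ### module Neut -/

theorem neut_of_mem_Rel {m : ℕ} (a : Fin m → ℤ) (ha : ∀ i, a i ≠ 0)
    (h : ∑ i, w (a i) ∈ Rel) : Neut fun i => (a i : ℚ) := by
  sorry

/-! ### module Homs -/

theorem sgn_Rel {x : FreeAbelianGroup ℤ} (hx : x ∈ Rel) : sgn x = 0 := by
  sorry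

theorem par_Rel (p : ℕ) (hp : p.Prime) {x : FreeAbelianGroup ℤ} (hx : x ∈ Rel) : par p x = 0 := by
  sorry

theorem gam_Rel (p : ℕ) (hp : p.Prime) (h2 : p ≠ 2) {x : FreeAbelianGroup ℤ} (hx : x ∈ Rel) :
    gam p x = 0 := by
  sorry

theorem gam_eq (p : ℕ) (hp : p.Prime) (h2 : p ≠ 2) (x : FreeAbelianGroup ℤ) (hx : par p x = 0) :
    gam p x = 0 ∨ gam p x = 2 := by
  sorry

/-! ### module Descent -/

theorem descent (p : ℕ) (hp : p.Prime) (h2 : p ≠ 2) {x : FreeAbelianGroup ℤ} (hx : x ∈ Sm p)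
    (h1 : par p x = 0) (h4 : gam p x = 0) : ∃ y ∈ Sm (p - 1), x - y ∈ Rel := by
  sorry

theorem mem_Rel (N : ℕ) (x : FreeAbelianGroup ℤ) (hx : x ∈ Sm N) (hs : sgn x = 0)
    (h1 : ∀ p : ℕ, p.Prime → par p x = 0) (h4 : ∀ p : ℕ, p.Prime → p ≠ 2 → gam p x = 0) :
    x ∈ Rel := by
  sorry

/-! ### module Twist -/

theorem exists_ef (S : Finset ℕ) (hS : ∀ p ∈ S, p.Prime ∧ p ≠ 2) (κ : ℤ) (hκ : κ = 1 ∨ κ = -1) :
    ∃ e f : ℤ, 0 < κ * e ∧ 0 < κ * f ∧ ∀ p : ℕ, p.Prime → p ≠ 2 →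
      gam p (w e + w f + w (-(e * f))) = if p ∈ S then 2 else 0 := by
  sorry

/-! ### module Final -/

theorem meyer5 (a : Fin 5 → ℚ) (h0 : ∀ i, a i ≠ 0) (hpos : ∃ i, 0 < a i) (hneg : ∃ i, a i < 0) :
    ∃ x : Fin 5 → ℚ, x ≠ 0 ∧ ∑ i, a i * x i ^ 2 = 0 := by
  sorry

/-! ### module Form -/

/-- the bilinear form with matrix `M` over a `ℚ`-algebra -/
noncomputable def mb {σ : Type} [Fintype σ] (M : Matrix σ σ ℚ) {R : Type} [CommRing R] [Algebra ℚ R]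
    (x y : σ → R) : R :=
  ∑ i, ∑ j, algebraMap ℚ R (M i j) * x i * y j

theorem exists_isotropic {σ : Type} [Fintype σ] (M : Matrix σ σ ℚ) (hM : M.IsSymm)
    (hr : 7 ≤ M.rank) (p : σ → ℚ) (hp : mb M p p = 0) (hp0 : ∃ u : σ → ℚ, mb M p u ≠ 0)
    (x : σ → ℝ) (hx : mb M (fun i => (p i : ℝ)) x = 0) (hxx : mb M x x = 0)
    (hns : ∃ u : σ → ℝ, mb M (fun i => (p i : ℝ)) u = 0 ∧ mb M x u ≠ 0) :
    ∃ y : σ → ℚ, mb M p y = 0 ∧ mb M y y = 0 ∧ mb M (fun i => (y i : ℝ)) x ≠ 0 := by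
  sorry

end Pool.Agent.Work.MY
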